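import Pool.Agent.Run7.h43.SD.Defs

/-!
# Cohomology and correspondences through a class of varieties: definitions
-/

open CategoryTheory Pool.Agent.H914 Pool.Agent.H914.VarClass.Obj Pool.Agent.R903 Pool.Agent.Run7.h192.Murre

universe u v w

namespace Run7.h43.SD

variable {k : Type u} [Field k] {𝒱 : VarClass k}

/-- The class `x` is in `CH^c(X)`. -/
@[reducible] def InCH (C : ChowTheory.{u, v} 𝒱) (X : 𝒱.Obj) (c : ℕ) (x : C.CH X) : Prop :=
  x ∈ C.gr X c

/-- The element `y` of `H^j(Y)` is `α_* a` for a correspondence `α` from `X` to `Y` of codimension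
`c` and `a ∈ H^i(X)` with `i + 2 (c - dim X) = j`. -/
@[reducible] def IsImage {C : ChowTheory.{u, v} 𝒱} (W : WeilTheory.{u, v, w} C) (X Y : 𝒱.Obj)
    (j : ℕ) (y : W.H Y) : Prop :=
  ∃ (i c : ℕ) (α : C.CH (X.prod Y)) (a : W.H X),
    InCH C (X.prod Y) c α ∧ a ∈ W.gr X i ∧ i + 2 * c = j + 2 * X.dim ∧ y = W.act α a

/-- The part of `H^j(Y)` which is generated by the varieties in `𝒳`: the subspace spanned by the
elements `α_* a`, for `X` in `𝒳`, a correspondence `α` from `X` to `Y` of codimension `c` and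
`a ∈ H^i(X)` with `i + 2 (c - dim X) = j`. -/
noncomputable def genPart {C : ChowTheory.{u, v} 𝒱} (W : WeilTheory.{u, v, w} C) (𝒳 : Set 𝒱.Obj)
    (Y : 𝒱.Obj) (j : ℕ) : Submodule W.K (W.H Y) :=
  Submodule.span W.K {y | ∃ X ∈ 𝒳, IsImage W X Y j y}

/-- The correspondence `γ` is a composition `Y → X' → X → Z` of correspondences, of codimension
`q`. -/
@[reducible] def IsThrough (C : ChowTheory.{u, v} 𝒱) (X' X Y Z : 𝒱.Obj) (q : ℕ)
    (γ : C.CH (Y.prod Z)) : Prop :=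
  ∃ (e f c : ℕ) (β : C.CH (Y.prod X')) (δ : C.CH (X'.prod X)) (α : C.CH (X.prod Z)),
    InCH C (Y.prod X') e β ∧ InCH C (X'.prod X) f δ ∧ InCH C (X.prod Z) c α ∧
      e + f + c = X'.dim + X.dim + q ∧ γ = C.comp (C.comp β δ) α

/-- The span of the compositions `Y → X' → X → Z` of correspondences, with `X'` in `𝒳'` and `X` in
`𝒳`, such that the codimension of the composition is `q`. -/
noncomputable def through (C : ChowTheory.{u, v} 𝒱) (𝒳' 𝒳 : Set 𝒱.Obj) (Y Z : 𝒱.Obj) (q : ℕ) :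
    Submodule ℚ (C.CH (Y.prod Z)) :=
  Submodule.span ℚ {γ | ∃ X' ∈ 𝒳', ∃ X ∈ 𝒳, IsThrough C X' X Y Z q γ}

/-- The `j`-th Künneth component of the diagonal of `X` is algebraic: there is a cycle on `X × X`,
with rational coefficients, which acts as the identity on `H^j(X)` and as zero on `H^l(X)` for
`l ≠ j`. -/
def KunnethAt {C : ChowTheory.{u, v} 𝒱} (W : WeilTheory.{u, v, w} C) (X : 𝒱.Obj) (j : ℕ) : Prop :=
  ∃ π, InCH C (X.prod X) X.dim π ∧ IsProjector (W.gr X) j (W.act π)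

/-- The `j`-th Künneth component of the diagonal of `Y` is given by a combination, with rational
coefficients, of compositions `Y → X' → X → Y` of correspondences with `X'` in `𝒳'` and `X` in
`𝒳`. -/
def KunnethThrough {C : ChowTheory.{u, v} 𝒱} (W : WeilTheory.{u, v, w} C) (𝒳 𝒳' : Set 𝒱.Obj)
    (Y : 𝒱.Obj) (j : ℕ) : Prop :=
  ∃ π ∈ through C 𝒳' 𝒳 Y Y Y.dim, IsProjector (W.gr Y) j (W.act π)

/-- Numerically trivial cycles on `X × Y` are homologically trivial: they act as zero on `H(X)`. -/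
def HomNum {C : ChowTheory.{u, v} 𝒱} (W : WeilTheory.{u, v, w} C) (X Y : 𝒱.Obj) : Prop :=
  ∀ γ : C.CH (X.prod Y), NumTrivial C γ → ∀ a, W.act γ a = 0

/-- `H^j(Y)` is generated by the varieties in `𝒳`. -/
def IsGen {C : ChowTheory.{u, v} 𝒱} (W : WeilTheory.{u, v, w} C) (𝒳 : Set 𝒱.Obj) (Y : 𝒱.Obj)
    (j : ℕ) : Prop :=
  W.gr Y j ≤ genPart W 𝒳 Y j

/-- `H^j(Y)` is generated by the varieties in `𝒳`, and `H^(2 dim Y - j)(Y)` by those in `𝒳'`. -/
def GeneratedAt {C : ChowTheory.{u, v} 𝒱} (W : WeilTheory.{u, v, w} C) (𝒳 𝒳' : Set 𝒱.Obj)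
    (Y : 𝒱.Obj) (j : ℕ) : Prop :=
  IsGen W 𝒳 Y j ∧ IsGen W 𝒳' Y (2 * Y.dim - j)

end Run7.h43.SD
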