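import Pool.Agent.Run7.h43.SD.Trace
import Pool.Agent.Run7.h43.SD.RelDefs
import Pool.Agent.H914R2.LefDefs

/-!
# Correspondences through two classes of varieties
-/

set_option autoImplicit false

open CategoryTheory CategoryTheory.Limits AlgebraicGeometry Finset
open Pool.Agent.H914 hiding IsProjector
open Pool.Agent.H914.VarClass Pool.Agent.H914.VarClass.Obj Pool.Agent.R903
open Pool.Agent.Run7.h192.Murre

universe u v w

namespace Run7.h43.SD

section LA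

variable {V : Type*} [AddCommGroup V] [Module ℚ V]

/-- Functionals which vanish on the radical of a symmetric form of finite rank are represented. -/
lemma exists_repr (B : V →ₗ[ℚ] V →ₗ[ℚ] ℚ) (hB : ∀ a b, B a b = B b a) {m : ℕ}
    (f : V →ₗ[ℚ] (Fin m → ℚ)) (hf : ∀ a, f a = 0 → B a = 0) (φ : V →ₗ[ℚ] ℚ)
    (hφ : ∀ a, B a = 0 → φ a = 0) : ∃ e, ∀ a, B e a = φ a := by
  have hker : LinearMap.ker f ≤ LinearMap.ker B := fun a ha =>
    LinearMap.mem_ker.2 (hf a (LinearMap.mem_ker.1 ha))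
  have hfin : FiniteDimensional ℚ (V ⧸ LinearMap.ker f) :=
    Module.Finite.equiv f.quotKerEquivRange.symm
  have hR : FiniteDimensional ℚ (LinearMap.range B) := by
    have h1 : LinearMap.range ((LinearMap.ker f).liftQ B hker) = LinearMap.range B :=
      Submodule.range_liftQ _ _ _
    rw [← h1]
    infer_instance
  have h2 : φ ∈ LinearMap.range B := by
    have h3 := Subspace.dualCoannihilator_dualAnnihilator_eq (W := LinearMap.range B)
    have h4 : φ ∈ (LinearMap.range B).dualCoannihilator.dualAnnihilator := by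
      rw [Submodule.mem_dualAnnihilator]
      intro a ha
      apply hφ
      ext b
      rw [Submodule.mem_dualCoannihilator] at ha
      rw [hB]
      exact ha (B b) ⟨b, rfl⟩
    rwa [h3] at h4
  obtain ⟨e, he⟩ := h2
  exact ⟨e, fun a => by rw [he]⟩

end LA

variable {k : Type u} [Field k] {𝒱 : VarClass k} {C : ChowTheory.{u, v} 𝒱}
  (W : WeilTheory.{u, v, w} C) {X Y Z : 𝒱.Obj}

lemma act_mem' {α : C.CH (X.prod Y)} {c i j : ℕ} (hα : α ∈ C.gr (X.prod Y) c)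
    (h : i + 2 * c = j + 2 * X.dim) {a : W.H X} (ha : a ∈ W.gr X i) : W.act α a ∈ W.gr Y j := by
  have h1 := act_shift W hα ha
  rwa [show (i : ℤ) + 2 * ((c : ℤ) - X.dim) = (j : ℤ) by omega, grZ_natCast] at h1

variable {W}

/-- homogeneous correspondences shift degrees -/
lemma act_zero_or {β : C.CH (Y.prod X)} {e l : ℕ} (hβ : β ∈ C.gr (Y.prod X) e) {a : W.H Y}
    (ha : a ∈ W.gr Y l) : W.act β a = 0 ∨ ∃ m, W.act β a ∈ W.gr X m ∧ l + 2 * e = m + 2 * Y.dim := by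
  have h1 := act_shift W hβ ha
  by_cases h0 : (l : ℤ) + 2 * ((e : ℤ) - Y.dim) < 0
  · rw [grZ_of_neg h0, Submodule.mem_bot] at h1
    exact Or.inl h1
  · obtain ⟨m, hm⟩ := Int.eq_ofNat_of_zero_le (not_lt.1 h0)
    have h2 : W.act β a ∈ W.gr X m := by
      rw [hm] at h1
      have h3 := h1
      rwa [grZ_natCast] at h3
    refine Or.inr ⟨m, h2, ?_⟩
    have h4 : (l : ℤ) + 2 * ((e : ℤ) - Y.dim) = (m : ℤ) := hm
    omega

lemma projector_mem {P : C.CH (X.prod X)} {i : ℕ} (hP : IsProjector (W.gr X) i (W.act P))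
    (w : W.H X) : W.act P w ∈ W.gr X i := by
  refine gr_induction (W.isInternal X) (p := fun w => W.act P w ∈ W.gr X i) ?_ ?_ w
  · intro l a ha
    rw [hP l a ha]
    split_ifs with hl
    · subst hl; exact ha
    · exact Submodule.zero_mem _
  · intro a b ha hb
    rw [map_add]; exact Submodule.add_mem _ ha hb

lemma tr_mul_act {α : C.CH (X.prod Y)} {c : ℕ} (hα : α ∈ C.gr (X.prod Y) c) {l : ℕ} {y : W.H Y}
    (hy : y ∈ W.gr Y l) (a : W.H X) :
    W.tr Y (y * W.act α a) = W.tr X (W.coact α y * a) := by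
  have h1 : W.tr Y (y * W.act α a) =
      W.tr (X.prod Y) (W.map (snd X Y) y * (W.cl _ α * W.map (fst X Y) a)) := by
    rw [WeilTheory.act_apply, ← W.map_push_mul _ hy]
    have h2 := W.tr_push (snd X Y) (W.map (snd X Y) y * (W.cl _ α * W.map (fst X Y) a)) 1
    rw [mul_one, map_one, mul_one] at h2
    exact h2
  rw [h1, WeilTheory.coact, W.tr_push, ← mul_assoc, W.even_comm (W.cl_mem hα)]

variable (W) in
include W in
/-- numerical triviality of homogeneous correspondences -/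
lemma numTrivial_of_homog {q : ℕ} {γ : C.CH (X.prod Y)} (hγ : γ ∈ C.gr (X.prod Y) q)
    (h : ∀ r, q + r = X.dim + Y.dim → ∀ δ ∈ C.gr (Y.prod X) r, trC (C.comp γ δ) = 0) :
    NumTrivial C γ := by
  intro δ
  refine gr_induction (C.isInternal (X.prod Y)) (p := fun δ => C.deg (X.prod Y) (γ * δ) = 0)
    ?_ ?_ δ
  · intro r δ hδ
    by_cases hr : q + r = X.dim + Y.dim
    · have h1 := h r hr (C.transp δ) (C.transp_mem hδ)
      rwa [trC_comp W, transp_transp] at h1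
    · have h1 := W.tr_cl (γ * δ)
      rw [W.tr_eq_zero (W.cl_mem (C.mul_mem hγ hδ)) (by rw [dim_prod]; omega)] at h1
      exact_mod_cast h1.symm
  · intro a b ha hb
    rw [mul_add, map_add, ha, hb, add_zero]

/-- composition with `β` on the right, as a linear map -/
noncomputable def compR (β : C.CH (Z.prod Y)) : C.CH (Y.prod Z) →ₗ[ℚ] C.CH (Y.prod Y) where
  toFun α := C.comp α β
  map_add' a b := C.add_comp a b β
  map_smul' q a := C.smul_comp q a β

/-- the hypotheses on the classes of varieties -/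
structure IsBase (W : WeilTheory.{u, v, w} C) (𝒳' 𝒳 : Set 𝒱.Obj) : Prop where
  kunneth : ∀ X ∈ 𝒳, ∀ i ≤ 2 * X.dim, ∃ P ∈ C.gr (X.prod X) X.dim,
    IsProjector (W.gr X) i (W.act P)
  hom : ∀ X' ∈ 𝒳', ∀ X ∈ 𝒳, ∀ γ : C.CH (X.prod X'), NumTrivial C γ → ∀ a, W.act γ a = 0

variable (W)

/-- the correspondences `Y → X' → (X, π^i) → Z` -/
noncomputable def tj (𝒳' 𝒳 : Set 𝒱.Obj) (Y Z : 𝒱.Obj) (j₀ m : ℕ) :
    Submodule ℚ (C.CH (Y.prod Z)) :=
  Submodule.span ℚ {γ | ∃ X' ∈ 𝒳', ∃ X ∈ 𝒳, ∃ (i e f c : ℕ) (β : C.CH (Y.prod X'))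
    (δ : C.CH (X'.prod X)) (P : C.CH (X.prod X)) (α : C.CH (X.prod Z)),
    β ∈ C.gr (Y.prod X') e ∧ δ ∈ C.gr (X'.prod X) f ∧ P ∈ C.gr (X.prod X) X.dim ∧
    IsProjector (W.gr X) i (W.act P) ∧ α ∈ C.gr (X.prod Z) c ∧ i + 2 * c = j₀ + 2 * X.dim ∧
    e + f + c + m = X'.dim + X.dim + Z.dim + Y.dim ∧
    γ = C.comp (C.comp (C.comp β δ) P) α}

variable {W} {𝒳' 𝒳 : Set 𝒱.Obj} {j₀ m j : ℕ}

lemma tj_le (q : ℕ) (hq : q + m = Z.dim + Y.dim) :
    tj W 𝒳' 𝒳 Y Z j₀ m ≤ through C 𝒳' 𝒳 Y Z q := by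
  refine Submodule.span_mono ?_
  rintro _ ⟨X', hX', X, hX, i, e, f, c, β, δ, P, α, hβ, hδ, hP, hP', hα, hi, he, rfl⟩
  refine ⟨X', hX', X, hX, e, f, c, β, C.comp δ P, α, hβ, C.comp_mem hδ hP rfl, hα, by omega, ?_⟩
  rw [C.comp_assoc β δ P]

lemma through_le (q : ℕ) (hq : q ≤ Y.dim + Z.dim) :
    through C 𝒳' 𝒳 Y Z q ≤ C.gr (Y.prod Z) q := by
  refine Submodule.span_le.2 ?_
  rintro _ ⟨X', hX', X, hX, e, f, c, β, δ, α, hβ, hδ, hα, he, rfl⟩
  by_cases hef : X'.dim ≤ e + f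
  · exact C.comp_mem (C.comp_mem hβ hδ (r := e + f - X'.dim) (by omega)) hα (by omega)
  · have h1 : C.comp β δ = 0 := by
      rw [ChowTheory.comp]
      exact C.push_eq_zero _ (C.mul_mem (C.pull_mem _ hβ) (C.pull_mem _ hδ))
        (by simp only [dim_prod]; omega)
    rw [h1, C.zero_comp]
    exact Submodule.zero_mem _

lemma genPart_le : genPart W 𝒳 Y j ≤ W.gr Y j := by
  refine Submodule.span_le.2 ?_
  rintro _ ⟨X, hX, i, c, α, a, hα, ha, hc, rfl⟩
  exact act_mem' W hα hc ha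

lemma tj_map {t : C.CH (Y.prod Z)} (ht : t ∈ tj W 𝒳' 𝒳 Y Z j₀ m) (w : W.H Y) :
    W.act t w ∈ genPart W 𝒳 Z j₀ := by
  refine Submodule.span_induction (p := fun t _ => W.act t w ∈ genPart W 𝒳 Z j₀) ?_ ?_ ?_ ?_ ht
  · rintro _ ⟨X', hX', X, hX, i, e, f, c, β, δ, P, α, hβ, hδ, hP, hP', hα, hi, he, rfl⟩
    rw [W.act_comp _ hα, W.act_comp _ hP]
    exact Submodule.subset_span ⟨X, hX, i, c, α, _, hα, projector_mem hP' _, hi, rfl⟩
  · rw [W.act_zero, LinearMap.zero_apply]; exact Submodule.zero_mem _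
  · intro x y _ _ hx hy
    rw [W.act_add, LinearMap.add_apply]; exact Submodule.add_mem _ hx hy
  · intro q x _ hx
    rw [W.act_smul, LinearMap.smul_apply]; exact Submodule.smul_mem _ _ hx

lemma tj_kill (hj : j₀ + 2 * m = j + 2 * Z.dim) {t : C.CH (Y.prod Z)}
    (ht : t ∈ tj W 𝒳' 𝒳 Y Z j₀ m) {l : ℕ} (hl : l ≠ j) {w : W.H Y}
    (hw : w ∈ W.gr Y l) : W.act t w = 0 := by
  refine Submodule.span_induction (p := fun t _ => W.act t w = 0) ?_ ?_ ?_ ?_ ht
  · rintro _ ⟨X', hX', X, hX, i, e, f, c, β, δ, P, α, hβ, hδ, hP, hP', hα, hi, he, rfl⟩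
    rw [W.act_comp _ hα, W.act_comp _ hP, W.act_comp _ hδ]
    rcases act_zero_or hβ hw with h1 | ⟨a, ha, ha'⟩
    · rw [h1, map_zero, map_zero, map_zero]
    rcases act_zero_or hδ ha with h1 | ⟨b, hb, hb'⟩
    · rw [h1, map_zero, map_zero]
    rw [hP' b _ hb, if_neg, map_zero]
    omega
  · rw [W.act_zero, LinearMap.zero_apply]
  · intro x y _ _ hx hy
    rw [W.act_add, LinearMap.add_apply, hx, hy, add_zero]
  · intro q x _ hx
    rw [W.act_smul, LinearMap.smul_apply, hx, smul_zero]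

/-- The main lemma. -/
lemma orth (hX : IsBase W 𝒳' 𝒳) (hj : j ≤ 2 * Y.dim) (hm : j₀ + 2 * m = j + 2 * Z.dim)
    {lam : C.CH (Z.prod Y)} (hlam : lam ∈ C.gr (Z.prod Y) m) {x : C.CH (Y.prod Y)}
    (hx : x ∈ C.gr (Y.prod Y) Y.dim)
    (hx' : ∀ t ∈ tj W 𝒳' 𝒳 Y Z j₀ m, trC (C.comp x (C.comp t lam)) = 0)
    {y : W.H Z} (hy : y ∈ genPart W 𝒳 Z j₀) {z : W.H Y}
    (hz : z ∈ genPart W 𝒳' Y (2 * Y.dim - j)) :
    W.tr Y (W.act x (W.act lam y) * z) = 0 := by
  refine Submodule.span_induction (p := fun y _ => W.tr Y (W.act x (W.act lam y) * z) = 0)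
    ?_ ?_ ?_ ?_ hy
  swap
  · rw [map_zero, map_zero, zero_mul, map_zero]
  swap
  · intro y y' _ _ h h'
    rw [map_add, map_add, add_mul, map_add, h, h', add_zero]
  swap
  · intro q y _ h
    rw [map_smul, map_smul, smul_mul_assoc, map_smul, h, smul_zero]
  rintro _ ⟨X, hXm, i, c, α, a, hα, ha, hc, rfl⟩
  refine Submodule.span_induction
    (p := fun z _ => W.tr Y (W.act x (W.act lam (W.act α a)) * z) = 0) ?_ ?_ ?_ ?_ hz
  swap
  · rw [mul_zero, map_zero]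
  swap
  · intro y y' _ _ h h'
    rw [mul_add, map_add, h, h', add_zero]
  swap
  · intro q y _ h
    rw [mul_smul_comm, map_smul, h, smul_zero]
  rintro _ ⟨X', hX'm, l, c', α', a', hα', ha', hc', rfl⟩
  by_cases hl : l ≤ 2 * X'.dim
  swap
  · rw [W.gr_eq_bot X' l (by omega), Submodule.mem_bot] at ha'
    rw [ha', map_zero, mul_zero, map_zero]
  by_cases hi : i ≤ 2 * X.dim
  swap
  · rw [W.gr_eq_bot X i (by omega), Submodule.mem_bot] at ha
    rw [ha, map_zero, map_zero, map_zero, zero_mul, map_zero]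
  have hyj : W.act x (W.act lam (W.act α a)) ∈ W.gr Y j :=
    act_mem0 W hx (act_mem' W hlam hm (act_mem' W hα hc ha))
  obtain ⟨P, hP, hP'⟩ := hX.kunneth X hXm i hi
  have hβ : C.transp α' ∈ C.gr (Y.prod X') c' := C.transp_mem hα'
  have hnum : NumTrivial C (C.comp (C.comp (C.comp (C.comp P α) lam) x) (C.transp α')) := by
    have h1 : C.comp (C.comp P α) lam ∈ C.gr (X.prod Y) (c + m - Z.dim) :=
      C.comp_mem (C.comp_mem (r := c) hP hα (by omega)) hlam (by omega)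
    have hq : C.comp (C.comp (C.comp (C.comp P α) lam) x) (C.transp α') ∈
        C.gr (X.prod X') (c + m - Z.dim + c' - Y.dim) :=
      C.comp_mem (C.comp_mem h1 hx rfl) hβ (by omega)
    refine numTrivial_of_homog W hq fun r hr δ hδ => ?_
    have h2 : trC (C.comp (C.comp (C.comp (C.comp (C.comp P α) lam) x) (C.transp α')) δ) =
        trC (C.comp x (C.comp (C.comp (C.comp (C.comp (C.transp α') δ) P) α) lam)) := by
      rw [C.comp_assoc, C.comp_assoc, trC_comm W]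
      simp only [C.comp_assoc]
    rw [h2]
    exact hx' _ (Submodule.subset_span ⟨X', hX'm, X, hXm, i, c', r, c, C.transp α', δ, P, α, hβ,
      hδ, hP, hP', hα, hc, by omega, rfl⟩)
  have h1 := hX.hom X' hX'm X hXm _ hnum a
  rw [W.act_comp _ hβ, W.act_comp _ hx, W.act_comp _ hlam, W.act_comp _ hα, hP' _ _ ha,
    if_pos rfl] at h1
  rw [tr_mul_act hα' hyj, ← W.act_transp, h1, zero_mul, map_zero]

/-- nondegeneracy of the image of the generated part -/
def NonDeg (W : WeilTheory.{u, v, w} C) (𝒳' 𝒳 : Set 𝒱.Obj) (j₀ : ℕ) (lam : C.CH (Z.prod Y))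
    (j : ℕ) : Prop :=
  ∀ y ∈ genPart W 𝒳 Z j₀, (∀ z ∈ genPart W 𝒳' Y (2 * Y.dim - j),
    W.tr Y (W.act lam y * z) = 0) → W.act lam y = 0

/-- **Existence of a generalised inverse.** -/
theorem exists_inverse (hX : IsBase W 𝒳' 𝒳) (hj : j ≤ 2 * Y.dim)
    (hm : j₀ + 2 * m = j + 2 * Z.dim) (hm' : m ≤ Z.dim + Y.dim)
    {lam : C.CH (Z.prod Y)} (hlam : lam ∈ C.gr (Z.prod Y) m) (hnd : NonDeg W 𝒳' 𝒳 j₀ lam j) :
    ∃ t ∈ tj W 𝒳' 𝒳 Y Z j₀ m, ∀ y ∈ genPart W 𝒳 Z j₀,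
      W.act lam (W.act t (W.act lam y)) = W.act lam y := by
  have hdeg : ∀ t ∈ tj W 𝒳' 𝒳 Y Z j₀ m, C.comp t lam ∈ C.gr (Y.prod Y) Y.dim := fun t ht =>
    C.comp_mem (through_le _ (by omega) (tj_le (Z.dim + Y.dim - m) (by omega) ht)) hlam (by omega)
  set A : Submodule ℚ (R0 C Y) := ((tj W 𝒳' 𝒳 Y Z j₀ m).map (compR lam)).comap ud with hA
  obtain ⟨n, f, hf⟩ := exists_coord W Y
  let T : R0 C Y →ₗ[ℚ] ℚ := (C.deg (Y.prod Y)) ∘ₗ (LinearMap.mulLeft ℚ (C.diagC Y)) ∘ₗ ud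
  let B : A →ₗ[ℚ] A →ₗ[ℚ] ℚ :=
    LinearMap.mk₂ ℚ (fun a b => T ((b : R0 C Y) * a))
      (fun a a' b => by rw [Submodule.coe_add, mul_add, map_add])
      (fun q a b => by rw [Submodule.coe_smul, mul_smul_comm, map_smul])
      (fun a b b' => by rw [Submodule.coe_add, add_mul, map_add])
      (fun q a b => by rw [Submodule.coe_smul, smul_mul_assoc, map_smul])
  have hB : ∀ a b : A, B a b = trC (C.comp (ud (a : R0 C Y)) (ud (b : R0 C Y))) := fun a b => rfl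
  have hvan : ∀ a : A, B a = 0 → ∀ t ∈ tj W 𝒳' 𝒳 Y Z j₀ m,
      trC (C.comp (ud (a : R0 C Y)) (C.comp t lam)) = 0 := by
    intro a ha t ht
    have h1 := LinearMap.congr_fun ha ⟨elt (C.comp t lam) (hdeg t ht), ⟨t, ht, rfl⟩⟩
    exact h1
  obtain ⟨e, he⟩ := exists_repr B (fun a b => by rw [hB, hB, trC_comm W])
    (f ∘ₗ A.subtype) (fun a ha => by
      ext b
      have h1 : NumTrivial C (ud (a : R0 C Y)) := hf _ ha
      rw [numTrivial_iff W] at h1
      exact h1 _) (T ∘ₗ A.subtype) (fun a ha => by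
      have h1 := hvan a ha
      obtain ⟨t, ht, ht'⟩ : ud (a : R0 C Y) ∈ (tj W 𝒳' 𝒳 Y Z j₀ m).map (compR lam) := a.2
      have ht2 : ud (a : R0 C Y) = C.comp t lam := ht'.symm
      have h2 : ∀ y ∈ genPart W 𝒳 Z j₀, W.act (ud (a : R0 C Y)) (W.act lam y) = 0 := by
        intro y hy
        rw [ht2, W.act_comp _ hlam]
        refine hnd _ (tj_map ht _) fun z hz => ?_
        have h3 := orth hX hj hm hlam (ud_mem _) h1 hy hz
        rwa [ht2, W.act_comp _ hlam] at h3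
      refine trC_eq_zero W (ud_mem _) fun w => ?_
      have h4 : W.act (ud (a : R0 C Y)) w = W.act lam (W.act t w) := by
        rw [ht2, W.act_comp _ hlam]
      change W.act (ud (a : R0 C Y)) (W.act (ud (a : R0 C Y)) w) = 0
      rw [h4]
      exact h2 _ (tj_map ht w))
  obtain ⟨t, ht, ht'⟩ : ud (e : R0 C Y) ∈ (tj W 𝒳' 𝒳 Y Z j₀ m).map (compR lam) := e.2
  have ht2 : ud (e : R0 C Y) = C.comp t lam := ht'.symm
  refine ⟨t, ht, fun y hy => ?_⟩
  have key : W.act lam (W.act t (W.act lam y) - y) = 0 := by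
    refine hnd _ (Submodule.sub_mem _ (tj_map ht _) hy) fun z hz => ?_
    have h3 := orth (x := ud (e : R0 C Y) - C.diagC Y) hX hj hm hlam
      (Submodule.sub_mem _ (ud_mem _) (C.diagC_mem Y)) (fun s hs => ?_) hy hz
    · rwa [W.act_sub, LinearMap.sub_apply, W.act_diagC, ht2, W.act_comp _ hlam, ← map_sub] at h3
    · have h4 := he ⟨elt (C.comp s lam) (hdeg s hs), ⟨s, hs, rfl⟩⟩
      rw [hB] at h4
      have h5 : C.comp (ud (e : R0 C Y) - C.diagC Y) (C.comp s lam) =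
          C.comp (ud (e : R0 C Y)) (C.comp s lam) - C.comp s lam := by
        rw [sub_eq_add_neg, C.add_comp, ← neg_one_smul ℚ (C.diagC Y), C.smul_comp, C.diagC_comp,
          neg_one_smul, ← sub_eq_add_neg]
      rw [h5, trC, mul_sub, map_sub, sub_eq_zero]
      exact h4
  rwa [map_sub, sub_eq_zero] at key

end Run7.h43.SD
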