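import Mathlib

/-!
# Spectral projectors of an algebraic element, and nilpotent sums of ideals
-/

set_option autoImplicit false

namespace Run7.h43.SD

open Polynomial

/-- The polynomial `c` selects the root `l` of `P`. -/
structure Sel (P : ℚ[X]) (l : ℚ) (c : ℚ[X]) : Prop where
  idem : P ∣ c * c - c
  loc : ∃ m : ℕ, P ∣ (X - C l) ^ m * c
  val : P.eval l = 0 → c.eval l = 1

lemma exists_sel {P : ℚ[X]} (hP : P ≠ 0) (l : ℚ) : ∃ c, Sel P l c := by
  obtain ⟨Q, hQ, hQ'⟩ := Polynomial.exists_eq_pow_rootMultiplicity_mul_and_not_dvd P hP l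
  set m := P.rootMultiplicity l with hm
  have hco : IsCoprime ((X - C l) ^ m) Q :=
    IsCoprime.pow_left ((irreducible_X_sub_C l).coprime_iff_not_dvd.2 hQ')
  obtain ⟨a, b, hab⟩ := hco
  refine ⟨b * Q, ?_, ⟨m, ?_⟩, ?_⟩
  · refine ⟨-(a * b), ?_⟩
    have h1 : b * Q = 1 - a * (X - C l) ^ m := by rw [← hab]; ring
    calc b * Q * (b * Q) - b * Q = (b * Q) * (b * Q - 1) := by ring
      _ = (b * Q) * ((1 - a * (X - C l) ^ m) - 1) := by rw [← h1]
      _ = ((X - C l) ^ m * Q) * -(a * b) := by ring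
      _ = _ := by rw [← hQ]
  · exact ⟨b, by conv_rhs => rw [hQ]
                 ring⟩
  · intro h0
    have hm0 : m ≠ 0 := by
      have := (Polynomial.rootMultiplicity_pos hP).2 h0
      omega
    have h1 := congrArg (eval l) hab
    simpa [hm0] using h1

lemma Sel.neg {P c : ℚ[X]} {l : ℚ} (hP : P.comp (-X) = P) (h : Sel P l c) :
    Sel P (-l) (c.comp (-X)) where
  idem := by
    obtain ⟨r, hr⟩ := h.idem
    refine ⟨r.comp (-X), ?_⟩
    have h1 := congrArg (fun q => q.comp (-X)) hr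
    simp only [sub_comp, mul_comp, hP] at h1
    exact h1
  loc := by
    obtain ⟨m, r, hr⟩ := h.loc
    refine ⟨m, (-1) ^ m * r.comp (-X), ?_⟩
    have h1 := congrArg (fun q => q.comp (-X)) hr
    simp only [mul_comp, hP, pow_comp, sub_comp, X_comp, C_comp] at h1
    have h2 : (X - C (-l)) ^ m = (-1) ^ m * (-X - C l) ^ m := by
      rw [← mul_pow]
      congr 1
      simp
      ring
    rw [h2, mul_assoc, h1]
    ring
  val h0 := by
    have h1 : P.eval l = 0 := by
      rw [← hP, eval_comp, eval_neg, eval_X]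
      exact h0
    rw [eval_comp, eval_neg, eval_X, neg_neg]
    exact h.val h1

lemma Sel.orth {P c c' : ℚ[X]} {l m : ℚ} (hlm : l ≠ m) (h : Sel P l c) (h' : Sel P m c') :
    P ∣ c * c' := by
  obtain ⟨i, r, hr⟩ := h.loc
  obtain ⟨j, s, hs⟩ := h'.loc
  have hco : IsCoprime ((X - C l) ^ i) ((X - C m) ^ j : ℚ[X]) := by
    apply IsCoprime.pow
    exact Polynomial.isCoprime_X_sub_C_of_isUnit_sub (by simpa [sub_eq_zero] using hlm)
  obtain ⟨a, b, hab⟩ := hco
  refine ⟨a * r * c' + b * s * c, ?_⟩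
  calc c * c' = (a * (X - C l) ^ i + b * (X - C m) ^ j) * (c * c') := by rw [hab, one_mul]
    _ = a * ((X - C l) ^ i * c) * c' + b * ((X - C m) ^ j * c') * c := by ring
    _ = _ := by rw [hr, hs]; ring

lemma Sel.eval_ne {P c : ℚ[X]} {l m : ℚ} (h : Sel P l c) (hm : P.eval m = 0) (hlm : m ≠ l) :
    c.eval m = 0 := by
  obtain ⟨i, r, hr⟩ := h.loc
  have h1 := congrArg (eval m) hr
  simp only [eval_mul, eval_pow, eval_sub, eval_X, eval_C, hm, zero_mul] at h1
  exact (mul_eq_zero.1 h1).resolve_left (pow_ne_zero _ (sub_ne_zero.2 hlm))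

/-- A polynomial with opposite variable. -/
lemma comp_neg_neg (P : ℚ[X]) : (P.comp (-X)).comp (-X) = P := by
  rw [comp_assoc]
  simp

/-- A compatible system of selecting polynomials. -/
lemma exists_system {P : ℚ[X]} (hP : P ≠ 0) (he : P.comp (-X) = P) :
    ∃ c : ℤ → ℚ[X], (∀ n : ℤ, n ≠ 0 → Sel P (n : ℚ) (c n)) ∧
      ∀ n : ℤ, (c n).comp (-X) = c (-n) := by
  choose c hc using fun l : ℚ => exists_sel hP l
  refine ⟨fun n : ℤ => if n < 0 then c (n : ℚ) else if 0 < n then (c (-n : ℚ)).comp (-X) else 0,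
    ?_, ?_⟩
  · intro n hn
    rcases lt_trichotomy n 0 with h | h | h
    · simp only [h, if_true]
      exact hc n
    · exact absurd h hn
    · simp only [not_lt.2 h.le, if_false, h, if_true]
      have := (hc (-n : ℚ)).neg he
      simpa using this
  · intro n
    rcases lt_trichotomy n 0 with h | h | h
    · simp [h, not_lt.2 h.le]
    · simp [h]
    · simp [h, not_lt.2 h.le, comp_neg_neg]

section Ring

variable {E : Type*} [Ring E] [Algebra ℚ E] {P : ℚ[X]} {z : E}

lemma aeval_of_dvd {Q : ℚ[X]} (hP : aeval z P = 0) (h : P ∣ Q) : aeval z Q = 0 := by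
  obtain ⟨r, rfl⟩ := h
  rw [map_mul, hP, zero_mul]

lemma Sel.aeval_idem {c : ℚ[X]} {l : ℚ} (h : Sel P l c) (hP : aeval z P = 0) :
    aeval z c * aeval z c = aeval z c := by
  have := aeval_of_dvd hP h.idem
  rwa [map_sub, map_mul, sub_eq_zero] at this

lemma Sel.aeval_orth {c c' : ℚ[X]} {l m : ℚ} (h : Sel P l c) (h' : Sel P m c') (hlm : l ≠ m)
    (hP : aeval z P = 0) : aeval z c * aeval z c' = 0 := by
  rw [← map_mul]
  exact aeval_of_dvd hP (h.orth hlm h')

/-- The spectral projector for a nonzero value is a multiple of the element. -/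
lemma Sel.aeval_factor {c : ℚ[X]} {l : ℚ} (h : Sel P l c) (hl : l ≠ 0) (hP : aeval z P = 0) :
    ∃ y, aeval z c = z * y := by
  obtain ⟨m, hm⟩ := h.loc
  have h1 := aeval_of_dvd hP hm
  obtain ⟨g, hg⟩ : (X : ℚ[X]) ∣ (X - C l) ^ m - C ((-l) ^ m) := by
    rw [X_dvd_iff, coeff_zero_eq_eval_zero]
    simp
  have h2 : (X - C l) ^ m = X * g + C ((-l) ^ m) := by rw [← hg]; ring
  rw [h2, map_mul, map_add, map_mul, aeval_X, aeval_C, add_mul] at h1
  have h3 : algebraMap ℚ E ((-l) ^ m) * aeval z c = -(z * aeval z g * aeval z c) :=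
    eq_neg_of_add_eq_zero_right h1
  have hl' : ((-l) ^ m) ≠ 0 := pow_ne_zero _ (neg_ne_zero.2 hl)
  refine ⟨-((((-l) ^ m)⁻¹ : ℚ) • (aeval z g * aeval z c)), ?_⟩
  calc aeval z c = (((-l) ^ m)⁻¹ : ℚ) • (algebraMap ℚ E ((-l) ^ m) * aeval z c) := by
        rw [← Algebra.smul_def, smul_smul, inv_mul_cancel₀ hl', one_smul]
    _ = (((-l) ^ m)⁻¹ : ℚ) • (-(z * aeval z g * aeval z c)) := by rw [h3]
    _ = _ := by rw [mul_neg, smul_neg, mul_smul_comm, mul_assoc]

end Ring

section Nil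

variable {E : Type*} [Ring E] [Algebra ℚ E]

/-- two-sided ideal -/
structure Two (b : Submodule ℚ E) : Prop where
  left : ∀ x, ∀ y ∈ b, x * y ∈ b
  right : ∀ x, ∀ y ∈ b, y * x ∈ b

lemma Two.sup {b c : Submodule ℚ E} (hb : Two b) (hc : Two c) : Two (b ⊔ c) where
  left x y hy := by
    obtain ⟨u, hu, v, hv, rfl⟩ := Submodule.mem_sup.1 hy
    rw [mul_add]
    exact Submodule.add_mem_sup (hb.left x u hu) (hc.left x v hv)
  right x y hy := by
    obtain ⟨u, hu, v, hv, rfl⟩ := Submodule.mem_sup.1 hy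
    rw [add_mul]
    exact Submodule.add_mem_sup (hb.right x u hu) (hc.right x v hv)

lemma Two.mul {b c : Submodule ℚ E} (hb : Two b) (hc : Two c) : Two (b * c) where
  left x y hy := by
    refine Submodule.mul_induction_on hy (fun u hu v hv => ?_) (fun u v hu hv => ?_)
    · rw [← mul_assoc]; exact Submodule.mul_mem_mul (hb.left x u hu) hv
    · rw [mul_add]; exact Submodule.add_mem _ hu hv
  right x y hy := by
    refine Submodule.mul_induction_on hy (fun u hu v hv => ?_) (fun u v hu hv => ?_)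
    · rw [mul_assoc]; exact Submodule.mul_mem_mul hu (hc.right x v hv)
    · rw [add_mul]; exact Submodule.add_mem _ hu hv

lemma Two.mul_le_left {b c : Submodule ℚ E} (hb : Two b) : b * c ≤ b :=
  Submodule.mul_le.2 fun _ hu v _ => hb.right v _ hu

lemma Two.mul_le_right {b c : Submodule ℚ E} (hc : Two c) : b * c ≤ c :=
  Submodule.mul_le.2 fun u _ _ hv => hc.left u _ hv

lemma Two.sup_pow_le {b c : Submodule ℚ E} (hc : Two c) (n : ℕ) :
    (b ⊔ c) ^ (n + 1) ≤ b ^ (n + 1) ⊔ c := by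
  induction n with
  | zero => rw [zero_add, pow_one, pow_one]
  | succ n ih =>
    rw [pow_succ (b ⊔ c)]
    refine (mul_le_mul' ih le_rfl).trans ?_
    rw [Submodule.sup_mul, Submodule.mul_sup, ← pow_succ]
    exact sup_le (sup_le le_sup_left (le_sup_of_le_right hc.mul_le_right))
      (le_sup_of_le_right hc.mul_le_left)

/-- A sum of two nilpotent ideals is nilpotent. -/
lemma Two.nil_sup {b c : Submodule ℚ E} (hc : Two c) {n m : ℕ} (hn : b ^ n = ⊥)
    (hm : c ^ m = ⊥) : ∃ N, (b ⊔ c) ^ N = ⊥ := by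
  refine ⟨(n + 1) * m, ?_⟩
  have h1 : (b ⊔ c) ^ (n + 1) ≤ c := by
    refine (hc.sup_pow_le n).trans ?_
    rw [pow_succ, hn, Submodule.bot_mul, bot_sup_eq]
  rw [pow_mul, eq_bot_iff, ← hm]
  exact pow_le_pow_left' h1 m

/-- `s` is in an ideal `c` with nilpotent `c I`. -/
def Small (I : Submodule ℚ E) (s : E) : Prop :=
  ∃ c : Submodule ℚ E, Two c ∧ s ∈ c ∧ ∃ N, (c * I) ^ N = ⊥

variable {I : Submodule ℚ E}

lemma Small.add (hI : Two I) {s t : E} (hs : Small I s) (ht : Small I t) : Small I (s + t) := by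
  obtain ⟨c, hc, hsc, n, hn⟩ := hs
  obtain ⟨d, hd, htd, m, hm⟩ := ht
  refine ⟨c ⊔ d, hc.sup hd, Submodule.add_mem_sup hsc htd, ?_⟩
  rw [Submodule.sup_mul]
  exact (hd.mul hI).nil_sup hn hm

lemma Small.mul_left {s : E} (hs : Small I s) (x : E) : Small I (x * s) := by
  obtain ⟨c, hc, hsc, h⟩ := hs
  exact ⟨c, hc, hc.left x s hsc, h⟩

lemma Small.mul_right {s : E} (hs : Small I s) (x : E) : Small I (s * x) := by
  obtain ⟨c, hc, hsc, h⟩ := hs
  exact ⟨c, hc, hc.right x s hsc, h⟩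

lemma Small.smul {s : E} (hs : Small I s) (q : ℚ) : Small I (q • s) := by
  obtain ⟨c, hc, hsc, h⟩ := hs
  exact ⟨c, hc, c.smul_mem q hsc, h⟩

lemma Small.zero : Small I (0 : E) :=
  ⟨⊥, ⟨fun x y hy => by rw [Submodule.mem_bot] at hy ⊢; rw [hy, mul_zero],
    fun x y hy => by rw [Submodule.mem_bot] at hy ⊢; rw [hy, zero_mul]⟩, Submodule.zero_mem _, 1,
    by rw [Submodule.bot_mul, pow_one]⟩

lemma Small.neg {s : E} (hs : Small I s) : Small I (-s) := by
  have := hs.smul (-1)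
  simpa using this

lemma Small.sum (hI : Two I) {ι : Type*} (F : Finset ι) (s : ι → E)
    (h : ∀ i ∈ F, Small I (s i)) : Small I (∑ i ∈ F, s i) := by
  classical
  induction F using Finset.induction_on with
  | empty => rw [Finset.sum_empty]; exact Small.zero
  | insert a F ha ih =>
    rw [Finset.sum_insert ha]
    exact (h a (Finset.mem_insert_self _ _)).add hI
      (ih fun i hi => h i (Finset.mem_insert_of_mem hi))

/-- The elements of `c` are nilpotent if they are in `I`. -/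
lemma Small.nilpotent {s x : E} (hs : Small I s) (hx : x ∈ I) : IsNilpotent (s * x) := by
  obtain ⟨c, -, hsc, N, hN⟩ := hs
  refine ⟨N, ?_⟩
  rw [← Submodule.mem_bot ℚ, ← hN]
  exact Submodule.pow_mem_pow _ (Submodule.mul_mem_mul hsc hx) N

/-- Elements of `Small I` are algebraic if `E / I` is finite-dimensional. -/
lemma Small.algebraic {m : ℕ} (f : E →ₗ[ℚ] (Fin m → ℚ)) (hf : ∀ a, f a = 0 → a ∈ I) {s : E}
    (hs : Small I s) : ∃ P : ℚ[X], P ≠ 0 ∧ aeval s P = 0 := by
  have h1 : ¬ Function.Injective (f ∘ₗ (aeval s : ℚ[X] →ₐ[ℚ] E).toLinearMap) := fun h =>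
    Polynomial.not_finite (R := ℚ) (Module.Finite.of_injective _ h)
  rw [← LinearMap.ker_eq_bot, Submodule.eq_bot_iff] at h1
  push Not at h1
  obtain ⟨Q, hQ, hQ0⟩ := h1
  have h2 : aeval s Q ∈ I := hf _ hQ
  obtain ⟨N, hN⟩ := hs.nilpotent h2
  refine ⟨(X * Q) ^ N, pow_ne_zero _ (mul_ne_zero X_ne_zero hQ0), ?_⟩
  rw [map_pow, map_mul, aeval_X, hN]

end Nil

end Run7.h43.SD
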