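import Pool.Agent.Run7.h192.Murre.TDefs

/-!
# Tame Chow motives: definitions
-/

open CategoryTheory Pool.Agent.H914 Pool.Agent.R903 Pool.Agent.Run7.h192.Murre

universe u v w

namespace Run7.h43.SD

variable {k : Type u} [Field k] {𝒱 : VarClass k}

/-- The correspondence `γ` is numerically trivial: `deg (γ · δ) = 0` for all classes `δ` of cycles
on `X × Y`. -/
def NumTrivial (C : ChowTheory.{u, v} 𝒱) {X Y : 𝒱.Obj} (γ : C.CH (X.prod Y)) : Prop :=
  ∀ δ : C.CH (X.prod Y), C.deg (X.prod Y) (γ * δ) = 0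

/-- The composition `p ∘ γ (n - 1) ∘ p ∘ ⋯ ∘ p ∘ γ 0 ∘ p`. -/
noncomputable def chain (C : ChowTheory.{u, v} 𝒱) {Z : 𝒱.Obj} (p : C.CH (Z.prod Z))
    (γ : ℕ → C.CH (Z.prod Z)) : ℕ → C.CH (Z.prod Z)
  | 0 => p
  | n + 1 => C.comp (C.comp (chain C p γ n) (γ n)) p

/-- The Chow motive `(Z, p)` is **tame**: `p` is an idempotent correspondence of degree zero, and
the ideal of the numerically trivial endomorphisms of `(Z, p)` is nilpotent, that is, for some `n`
all compositions of `n` numerically trivial endomorphisms `p ∘ γ ∘ p` are zero. Motives which are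
finite-dimensional in the sense of Kimura are tame. -/
structure IsTame (C : ChowTheory.{u, v} 𝒱) (Z : 𝒱.Obj) (p : C.CH (Z.prod Z)) : Prop where
  mem : IsDegreeZero C p
  idem : C.comp p p = p
  nil : ∃ n, ∀ γ : ℕ → C.CH (Z.prod Z), (∀ i, IsDegreeZero C (γ i) ∧ NumTrivial C (γ i)) →
    chain C p γ n = 0

/-- The correspondence `γ` from `X` to `X` is a composition `X → (Z, p) → X`, of total degree zero,
through a tame Chow motive `(Z, p)`. -/
def ThroughTame (C : ChowTheory.{u, v} 𝒱) {X : 𝒱.Obj} (γ : C.CH (X.prod X)) : Prop :=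
  ∃ (Z : 𝒱.Obj) (p : C.CH (Z.prod Z)) (a b : ℕ) (α : C.CH (X.prod Z)) (β : C.CH (Z.prod X)),
    IsTame C Z p ∧ α ∈ C.gr (X.prod Z) a ∧ β ∈ C.gr (Z.prod X) b ∧ a + b = X.dim + Z.dim ∧
      γ = C.comp (C.comp α p) β

/-- The correspondences of degree zero from `X` to `X` which factor through finite direct sums of
twists of tame Chow motives: the sums of compositions through tame Chow motives. -/
noncomputable def tameIdeal (C : ChowTheory.{u, v} 𝒱) (X : 𝒱.Obj) : Submodule ℚ (C.CH (X.prod X)) :=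
  Submodule.span ℚ {γ | ThroughTame C γ}

/-- `π` is a Chow–Künneth decomposition of `X` whose summands `(X, π j)`, `j ≠ dim X`, are tame. -/
def IsTameCK {C : ChowTheory.{u, v} 𝒱} (W : WeilTheory.{u, v, w} C) (X : 𝒱.Obj) (π : ℕ → C.CH (X.prod X)) : Prop :=
  W.IsCK X π ∧ ∀ j, j ≠ X.dim → IsTame C X (π j)

end Run7.h43.SD
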