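import Pool.Agent.Run7.h43.SD.Main

/-!
# The weight operator
-/

set_option autoImplicit false

open CategoryTheory CategoryTheory.Limits AlgebraicGeometry Finset
open Pool.Agent.H914 Pool.Agent.H914.VarClass Pool.Agent.H914.VarClass.Obj Pool.Agent.R903
open Pool.Agent.Run7.h192.Murre

universe u v w

namespace Run7.h43.SD

variable {k : Type u} [Field k] {𝒱 : VarClass k} {C : ChowTheory.{u, v} 𝒱}
  {W : WeilTheory.{u, v, w} C} {X Y Z : 𝒱.Obj}

/-- half of the Künneth projectors are given by correspondences through tame motives -/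
def HalfTame (W : WeilTheory.{u, v, w} C) (X : 𝒱.Obj) : Prop :=
  ∀ j < X.dim, ∃ ε ∈ tameIdeal C X,
    IsProjector (W.gr X) j (W.act ε) ∨ IsProjector (W.gr X) (2 * X.dim - j) (W.act ε)

lemma exists_proj (h : HalfTame W X) {j : ℕ} (hj : j < X.dim) :
    ∃ s : R0 C X, Small (NI C X) s ∧ ∀ l, ∀ x ∈ W.gr X l, ac W s x = if l = j then x else 0 := by
  obtain ⟨ε, hε, h1⟩ := h j hj
  obtain ⟨s, hs, hs'⟩ := small_of_mem W hε
  rcases h1 with h1 | h1
  · refine ⟨s, hs', fun l x hx => ?_⟩
    rw [ac, hs]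
    exact h1 l x hx
  · refine ⟨tp s, hs'.tp W, fun l x hx => ?_⟩
    by_cases hl : l ≤ 2 * X.dim
    swap
    · rw [W.gr_eq_bot X l (by omega), Submodule.mem_bot] at hx
      rw [hx, ac_zero_right, ite_self]
    rw [ac_tp (c := fun m => if m = 2 * X.dim - j then 1 else 0) (fun m a ha => ?_) hx]
    · by_cases hlj : l = j
      · rw [if_pos (by omega), if_pos hlj, one_smul]
      · rw [if_neg (by omega), if_neg hlj, zero_smul]
    · rw [ac, hs]
      have h2 : W.act ε a = if m = 2 * X.dim - j then a else 0 := h1 m a ha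
      rw [h2]
      split_ifs
      · rw [one_smul]
      · rw [zero_smul]

/-- the weight operator, antisymmetric -/
lemma exists_weight (h : HalfTame W X) :
    ∃ z : R0 C X, WOp W z ∧ Small (NI C X) z ∧ tp z = -z := by
  have h' : ∀ j : Fin X.dim, ∃ s : R0 C X, Small (NI C X) s ∧
      ∀ l, ∀ x ∈ W.gr X l, ac W s x = if l = (j : ℕ) then x else 0 := fun j => exists_proj h j.2
  choose s hs hs' using h'
  set z0 : R0 C X := ∑ j : Fin X.dim, (((j : ℕ) : ℚ) - X.dim) • s j with hz0
  have hz0s : Small (NI C X) z0 := Small.sum (two_NI W) _ _ fun j _ => (hs j).smul _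
  have hact : ∀ l, ∀ x ∈ W.gr X l,
      ac W z0 x = (if l < X.dim then (l : W.K) - X.dim else 0) • x := by
    intro l x hx
    rw [hz0, ac_sum]
    by_cases hl : l < X.dim
    · rw [Finset.sum_eq_single ⟨l, hl⟩, if_pos hl, ac_smul, hs' _ l x hx, if_pos rfl]
      · push_cast; rfl
      · intro j _ hj
        rw [ac_smul, hs' _ l x hx, if_neg, smul_zero]
        intro h5
        exact hj (Fin.ext h5.symm)
      · intro h5
        exact absurd (Finset.mem_univ _) h5
    · rw [if_neg hl, zero_smul]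
      refine Finset.sum_eq_zero fun j _ => ?_
      rw [ac_smul, hs' _ l x hx, if_neg, smul_zero]
      have := j.2
      omega
  refine ⟨z0 - tp z0, fun l hl x hx => ?_, ?_, ?_⟩
  · rw [ac_sub, hact l x hx, ac_tp hact hx, ← sub_smul]
    congr 1
    rcases lt_trichotomy l X.dim with h1 | h1 | h1
    · rw [if_pos h1, if_neg (by omega), sub_zero]
    · rw [if_neg (by omega), if_neg (by omega), h1]; ring
    · rw [if_neg (by omega), if_pos (by omega), Nat.cast_sub hl]
      push_cast
      ring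
  · rw [sub_eq_add_neg]
    exact hz0s.add (two_NI W) (hz0s.tp W).neg
  · rw [map_sub, tp_tp, neg_sub]

section Group

variable {G : Type*} [Group G] [Finite G] {g : G → C.CH (X.prod X)}

/-- averaging -/
lemma exists_average (hg : IsIsometryGroup C X g) {z : R0 C X} (hz : WOp W z)
    (hs : Small (NI C X) z) (hτ : tp z = -z) :
    ∃ z' : R0 C X, WOp W z' ∧ Small (NI C X) z' ∧ tp z' = -z' ∧
      ∀ a, Commute z' (elt (g a) (hg.mem a)) := by
  haveI := Fintype.ofFinite G
  set U : G → R0 C X := fun a => elt (g a) (hg.mem a) with hU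
  have hmul : ∀ a b, U b * U a = U (a * b) := by
    intro a b
    apply ud_inj
    rw [ud_mul, hU]
    simp only [ud_elt]
    exact hg.mul a b
  have hone : U 1 = 1 := by
    apply ud_inj
    rw [hU]
    simp only [ud_elt, ud_one]
    exact hg.one
  have htp : ∀ a, tp (U a) = U a⁻¹ := by
    intro a
    apply ud_inj
    rw [ud_tp, hU]
    simp only [ud_elt]
    exact hg.transp a
  have hn : ((Fintype.card G : ℕ) : ℚ) ≠ 0 := by
    exact_mod_cast Fintype.card_ne_zero
  refine ⟨((Fintype.card G : ℕ) : ℚ)⁻¹ • ∑ a, U a * z * U a⁻¹, fun l hl x hx => ?_, ?_, ?_, ?_⟩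
  · rw [ac_smul, ac_sum]
    have h1 : ∀ a ∈ Finset.univ, ac W (U a * z * U a⁻¹) x = ((l : W.K) - X.dim) • x := by
      intro a _
      rw [ac_mul, ac_mul, hz l hl _ (ac_mem _ hx), ac_lin, ← ac_mul, hmul, inv_mul_cancel, hone,
        ac_one]
    rw [Finset.sum_congr rfl h1, Finset.sum_const, Finset.card_univ, ← Nat.cast_smul_eq_nsmul W.K,
      smul_smul, Rat.cast_inv, Rat.cast_natCast, inv_mul_cancel₀ (by exact_mod_cast hn), one_smul]
  · exact (Small.sum (two_NI W) _ _ fun a _ => (hs.mul_left _).mul_right _).smul _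
  · rw [map_smul, map_sum, ← smul_neg, ← Finset.sum_neg_distrib]
    congr 1
    refine Finset.sum_congr rfl fun a _ => ?_
    rw [tp_mul, tp_mul, hτ, htp, htp, inv_inv]
    simp [mul_assoc]
  · intro b
    refine Commute.smul_left ?_ _
    change (∑ a, U a * z * U a⁻¹) * U b = U b * ∑ a, U a * z * U a⁻¹
    rw [Finset.sum_mul, Finset.mul_sum]
    refine Finset.sum_bij (fun a _ => a * b⁻¹) (fun a _ => Finset.mem_univ _) ?_ ?_ ?_
    · intro a _ a' _ h
      exact mul_right_cancel h
    · intro a _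
      exact ⟨a * b, Finset.mem_univ _, by simp⟩
    · intro a _
      have e1 : U b * U (a * b⁻¹) = U a := by rw [hmul, inv_mul_cancel_right]
      have e2 : U (a * b⁻¹)⁻¹ = U a⁻¹ * U b := by rw [hmul, mul_inv_rev, inv_inv]
      rw [e2, ← mul_assoc, ← mul_assoc, ← mul_assoc, e1]

end Group

/-- Invariant self-dual tame decompositions. -/
theorem exists_tame (h : HalfTame W X) {G : Type*} [Group G] [Finite G]
    {g : G → C.CH (X.prod X)} (hg : IsIsometryGroup C X g) :
    ∃ π : ℕ → C.CH (X.prod X), IsTameCK W X π ∧ SelfDual C π ∧ ∀ j, Invariant C g (π j) := by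
  obtain ⟨z, hz, hs, hτ⟩ := exists_weight h
  obtain ⟨z', hz', hs', hτ', hc⟩ := exists_average hg hz hs hτ
  obtain ⟨π, h1, h2, h3⟩ := exists_of_operator hz' hs' hτ'
  exact ⟨π, h1, h2, fun j a => h3 _ (hc a) j⟩

/-- Decompositions with tame halves give tame Künneth projectors. -/
lemma halfTame_of_ck {π : ℕ → C.CH (X.prod X)} (h : W.IsCK X π)
    (ht : ∀ j < X.dim, IsTame C X (π j) ∨ IsTame C X (π (2 * X.dim - j))) : HalfTame W X := by
  intro j hj
  rcases ht j hj with h1 | h1
  · exact ⟨π j, h1.mem_tameIdeal, Or.inl (h.proj j)⟩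
  · exact ⟨π (2 * X.dim - j), h1.mem_tameIdeal, Or.inr (h.proj _)⟩

end Run7.h43.SD
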