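import Pool.Agent.Run7.h43.SD.Num

/-!
# Correspondences through tame motives
-/

set_option autoImplicit false

open CategoryTheory CategoryTheory.Limits AlgebraicGeometry Finset
open Pool.Agent.H914 Pool.Agent.H914.VarClass Pool.Agent.H914.VarClass.Obj Pool.Agent.R903
open Pool.Agent.Run7.h192.Murre

universe u v w

namespace Run7.h43.SD

variable {k : Type u} [Field k] {𝒱 : VarClass k} {C : ChowTheory.{u, v} 𝒱}
  (W : WeilTheory.{u, v, w} C) {X Y Z : 𝒱.Obj}

/-- admissible sequences -/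
def Adm (C : ChowTheory.{u, v} 𝒱) {Z : 𝒱.Obj} (γ : ℕ → C.CH (Z.prod Z)) : Prop :=
  ∀ i, IsDegreeZero C (γ i) ∧ NumTrivial C (γ i)

lemma chain_congr (p : C.CH (Z.prod Z)) {γ γ' : ℕ → C.CH (Z.prod Z)} (n : ℕ)
    (h : ∀ i < n, γ i = γ' i) : chain C p γ n = chain C p γ' n := by
  induction n with
  | zero => rfl
  | succ n ih => rw [chain, chain, ih fun i hi => h i (by omega), h n (by omega)]

/-- span of the chains -/
noncomputable def Ch (p : C.CH (Z.prod Z)) (n : ℕ) : Submodule ℚ (C.CH (Z.prod Z)) :=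
  Submodule.span ℚ {w | ∃ γ, Adm C γ ∧ w = chain C p γ n}

lemma Ch_step {p : C.CH (Z.prod Z)} {n : ℕ} {w y : C.CH (Z.prod Z)} (hw : w ∈ Ch p n)
    (hy : y ∈ C.gr (Z.prod Z) Z.dim) (hy' : NumTrivial C y) :
    C.comp (C.comp w y) p ∈ Ch p (n + 1) := by
  refine Submodule.span_induction (p := fun w _ => C.comp (C.comp w y) p ∈ Ch p (n + 1))
    ?_ ?_ ?_ ?_ hw
  · rintro _ ⟨γ, hγ, rfl⟩
    refine Submodule.subset_span ⟨Function.update γ n y, ?_, ?_⟩
    · intro i
      by_cases hi : i = n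
      · subst hi; rw [Function.update_self]; exact ⟨hy, hy'⟩
      · rw [Function.update_of_ne hi]; exact hγ i
    · rw [chain, Function.update_self, chain_congr p (γ := Function.update γ n y) (γ' := γ) n
        fun i hi => Function.update_of_ne (by omega) _ _]
  · rw [C.zero_comp, C.zero_comp]; exact Submodule.zero_mem _
  · intro a b _ _ ha hb
    rw [C.add_comp, C.add_comp]; exact Submodule.add_mem _ ha hb
  · intro q a _ ha
    rw [C.smul_comp, C.smul_comp]; exact Submodule.smul_mem _ q ha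

lemma Ch_zero {p w : C.CH (Z.prod Z)} (hw : w ∈ Ch p 0) : ∃ q : ℚ, w = q • p := by
  refine Submodule.span_induction (p := fun w _ => ∃ q : ℚ, w = q • p) ?_ ?_ ?_ ?_ hw
  · rintro _ ⟨γ, -, rfl⟩
    exact ⟨1, by rw [one_smul]; try rfl⟩
  · exact ⟨0, by rw [zero_smul]⟩
  · rintro _ _ _ _ ⟨q, rfl⟩ ⟨r, rfl⟩
    exact ⟨q + r, by rw [add_smul]⟩
  · rintro r _ _ ⟨q, rfl⟩
    exact ⟨r * q, by rw [mul_smul]⟩

/-- the elements through the chains -/
noncomputable def TT (X : 𝒱.Obj) (p : C.CH (Z.prod Z)) (a b n : ℕ) : Submodule ℚ (R0 C X) :=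
  Submodule.span ℚ {t | ∃ (α : C.CH (X.prod Z)) (β : C.CH (Z.prod X)) (w : C.CH (Z.prod Z)),
    α ∈ C.gr _ a ∧ β ∈ C.gr _ b ∧ w ∈ Ch p n ∧ ud t = C.comp (C.comp α w) β}

lemma two_TT (X : 𝒱.Obj) (p : C.CH (Z.prod Z)) (a b n : ℕ) : Two (TT X p a b n) where
  left x y hy := by
    refine Submodule.span_induction (p := fun y _ => x * y ∈ TT X p a b n) ?_ ?_ ?_ ?_ hy
    · rintro t ⟨α, β, w, hα, hβ, hw, ht⟩
      refine Submodule.subset_span ⟨α, C.comp β (ud x), w, hα, C.comp_mem hβ (ud_mem x) rfl, hw, ?_⟩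
      rw [ud_mul, ht, C.comp_assoc]
    · rw [mul_zero]; exact Submodule.zero_mem _
    · intro u v _ _ hu hv; rw [mul_add]; exact Submodule.add_mem _ hu hv
    · intro q u _ hu; rw [mul_smul_comm]; exact Submodule.smul_mem _ q hu
  right x y hy := by
    refine Submodule.span_induction (p := fun y _ => y * x ∈ TT X p a b n) ?_ ?_ ?_ ?_ hy
    · rintro t ⟨α, β, w, hα, hβ, hw, ht⟩
      refine Submodule.subset_span ⟨C.comp (ud x) α, β, w, C.comp_mem (ud_mem x) hα (by omega),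
        hβ, hw, ?_⟩
      rw [ud_mul, ht, C.comp_assoc, C.comp_assoc, C.comp_assoc]
    · rw [zero_mul]; exact Submodule.zero_mem _
    · intro u v _ _ hu hv; rw [add_mul]; exact Submodule.add_mem _ hu hv
    · intro q u _ hu; rw [smul_mul_assoc]; exact Submodule.smul_mem _ q hu

include W in
lemma TT_step {p : C.CH (Z.prod Z)} {a b : ℕ} (hab : a + b = X.dim + Z.dim) (n : ℕ) :
    TT X p a b 0 * NI C X * TT X p a b n ≤ TT X p a b (n + 1) := by
  rw [Submodule.mul_le]
  intro u hu t ht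
  refine Submodule.mul_induction_on hu (fun e he x hx => ?_) (fun u v hu hv => ?_)
  · refine Submodule.span_induction (p := fun e _ => e * x * t ∈ TT X p a b (n + 1))
      ?_ ?_ ?_ ?_ he
    · rintro e ⟨α', β', w', hα', hβ', hw', he⟩
      obtain ⟨q, rfl⟩ := Ch_zero hw'
      refine Submodule.span_induction (p := fun t _ => e * x * t ∈ TT X p a b (n + 1))
        ?_ ?_ ?_ ?_ ht
      · rintro t ⟨α, β, w, hα, hβ, hw, ht⟩
        have hβx : C.comp β (ud x) ∈ C.gr _ b := C.comp_mem hβ (ud_mem x) rfl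
        have hy : C.comp (C.comp β (ud x)) α' ∈ C.gr _ Z.dim :=
          C.comp_mem hβx hα' (by omega)
        have hy' : NumTrivial C (C.comp (C.comp β (ud x)) α') :=
          NumTrivial.comp_right W (NumTrivial.comp_left W hx β) α'
        refine Submodule.subset_span ⟨α, β', q • C.comp (C.comp w _) p, hα, hβ',
          Submodule.smul_mem _ q (Ch_step hw hy hy'), ?_⟩
        rw [mul_assoc, ud_mul, ud_mul, ht, he]
        simp only [C.comp_smul, C.smul_comp, C.comp_assoc]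
      · rw [mul_zero]; exact Submodule.zero_mem _
      · intro u v _ _ hu hv; rw [mul_add]; exact Submodule.add_mem _ hu hv
      · intro q u _ hu; rw [mul_smul_comm]; exact Submodule.smul_mem _ q hu
    · rw [zero_mul, zero_mul]; exact Submodule.zero_mem _
    · intro u v _ _ hu hv; rw [add_mul, add_mul]; exact Submodule.add_mem _ hu hv
    · intro q u _ hu; rw [smul_mul_assoc, smul_mul_assoc]; exact Submodule.smul_mem _ q hu
  · rw [add_mul]; exact Submodule.add_mem _ hu hv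

include W in
lemma TT_pow {p : C.CH (Z.prod Z)} {a b : ℕ} (hab : a + b = X.dim + Z.dim) (n : ℕ) :
    (TT X p a b 0 * NI C X) ^ n * TT X p a b 0 ≤ TT X p a b n := by
  induction n with
  | zero => rw [pow_zero, one_mul]
  | succ n ih =>
    rw [pow_succ', mul_assoc]
    exact (mul_le_mul' le_rfl ih).trans (TT_step W hab n)

lemma Ch_bot {p : C.CH (Z.prod Z)} {n : ℕ} (h : ∀ γ, Adm C γ → chain C p γ n = 0) :
    Ch p n = ⊥ := by
  rw [Ch, Submodule.span_eq_bot]
  rintro _ ⟨γ, hγ, rfl⟩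
  exact h γ hγ

include W in
/-- Compositions through tame motives are small. -/
lemma ThroughTame.small {γ : C.CH (X.prod X)} (h : ThroughTame C γ) :
    ∃ s : R0 C X, ud s = γ ∧ Small (NI C X) s := by
  obtain ⟨Z, p, a, b, α, β, hp, hα, hβ, hab, rfl⟩ := h
  have hmem : C.comp (C.comp α p) β ∈ C.gr (X.prod X) X.dim :=
    C.comp_mem (C.comp_mem hα hp.mem rfl) hβ (by omega)
  obtain ⟨n, hn⟩ := hp.nil
  refine ⟨elt _ hmem, ud_elt hmem, TT X p a b 0, two_TT X p a b 0, ?_, n + 1, ?_⟩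
  · refine Submodule.subset_span ⟨α, β, p, hα, hβ, ?_, ud_elt hmem⟩
    refine Submodule.subset_span ⟨fun _ => 0, fun i => ⟨Submodule.zero_mem _, fun δ => ?_⟩, rfl⟩
    rw [zero_mul, map_zero]
  · have h1 : TT X p a b n = ⊥ := by
      rw [TT, Submodule.span_eq_bot]
      rintro t ⟨α, β, w, -, -, hw, ht⟩
      rw [Ch_bot hn, Submodule.mem_bot] at hw
      rw [hw, C.comp_zero, C.zero_comp] at ht
      exact ud_inj (by rw [ht, map_zero])
    rw [pow_succ, ← mul_assoc, eq_bot_iff]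
    refine (mul_le_mul' (TT_pow W hab n) le_rfl).trans ?_
    rw [h1, Submodule.bot_mul]

include W in
lemma small_of_mem {γ : C.CH (X.prod X)} (h : γ ∈ tameIdeal C X) :
    ∃ s : R0 C X, ud s = γ ∧ Small (NI C X) s := by
  refine Submodule.span_induction
    (p := fun γ _ => ∃ s : R0 C X, ud s = γ ∧ Small (NI C X) s) ?_ ?_ ?_ ?_ h
  · intro γ hγ
    exact ThroughTame.small W hγ
  · exact ⟨0, map_zero _, Small.zero⟩
  · rintro _ _ _ _ ⟨s, rfl, hs⟩ ⟨t, rfl, ht⟩
    exact ⟨s + t, map_add _ _ _, hs.add (two_NI W) ht⟩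
  · rintro q _ _ ⟨s, rfl, hs⟩
    exact ⟨q • s, map_smul _ _ _, hs.smul q⟩

/-- Small idempotents are tame. -/
lemma isTame_of_small {e : R0 C X} (he : e * e = e) (hs : Small (NI C X) e) :
    IsTame C X (ud e) := by
  obtain ⟨c, hc, hec, N, hN⟩ := hs
  refine ⟨ud_mem e, by rw [← ud_mul, he], N, fun γ hγ => ?_⟩
  have key : ∀ n, ∃ t ∈ (c * NI C X) ^ n * c, ud t = chain C (ud e) γ n := by
    intro n
    induction n with
    | zero => exact ⟨e, by rw [pow_zero, one_mul]; exact hec, rfl⟩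
    | succ n ih =>
      obtain ⟨t, ht, ht'⟩ := ih
      refine ⟨e * elt (γ n) (hγ n).1 * t, ?_, ?_⟩
      · rw [pow_succ', mul_assoc]
        refine Submodule.mul_mem_mul (Submodule.mul_mem_mul hec ?_) ht
        rw [mem_NI, ud_elt]
        exact (hγ n).2
      · rw [ud_mul, ud_mul, ud_elt, ht', chain, C.comp_assoc]
  obtain ⟨t, ht, ht'⟩ := key N
  rw [hN, Submodule.bot_mul, Submodule.mem_bot] at ht
  rw [← ht', ht, map_zero]

/-- Tame idempotents are in the tame ideal. -/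
lemma IsTame.mem_tameIdeal {p : C.CH (X.prod X)} (h : IsTame C X p) : p ∈ tameIdeal C X :=
  Submodule.subset_span ⟨X, p, X.dim, X.dim, C.diagC X, C.diagC X, h, C.diagC_mem X,
    C.diagC_mem X, rfl, by rw [C.diagC_comp, C.comp_diagC]⟩

include W in
lemma numTrivial_transp {γ : C.CH (X.prod Y)} (h : NumTrivial C γ) :
    NumTrivial C (C.transp γ) := by
  intro δ
  have h1 := h (C.transp δ)
  rw [← deg_swap W (C.transp γ * δ), C.pull_mul]
  have h2 : C.pull (swap X Y) (C.transp γ) = γ := transp_transp γ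
  rw [h2]
  exact h1

lemma map_tp_mul (A B : Submodule ℚ (R0 C X)) : A.map tp * B.map tp ≤ (B * A).map tp := by
  rw [Submodule.mul_le]
  rintro _ ⟨a, ha, rfl⟩ _ ⟨b, hb, rfl⟩
  exact ⟨b * a, Submodule.mul_mem_mul hb ha, tp_mul b a⟩

include W in
/-- The transpose of a small correspondence is small. -/
lemma Small.tp {s : R0 C X} (hs : Small (NI C X) s) :
    Small (NI C X) (Pool.Agent.Run7.h192.Murre.tp s) := by
  obtain ⟨c, hc, hsc, N, hN⟩ := hs
  have hI : (NI C X).map Pool.Agent.Run7.h192.Murre.tp = NI C X := by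
    apply le_antisymm
    · rintro _ ⟨x, hx, rfl⟩
      rw [mem_NI, ud_tp]
      exact numTrivial_transp W hx
    · intro x hx
      refine ⟨Pool.Agent.Run7.h192.Murre.tp x, ?_, tp_tp x⟩
      change NumTrivial C _
      rw [ud_tp]
      exact numTrivial_transp W hx
  refine ⟨c.map Pool.Agent.Run7.h192.Murre.tp, ⟨?_, ?_⟩, ⟨s, hsc, rfl⟩, N + 1, ?_⟩
  · rintro x _ ⟨y, hy, rfl⟩
    exact ⟨y * Pool.Agent.Run7.h192.Murre.tp x, hc.right _ _ hy, by rw [tp_mul, tp_tp]⟩
  · rintro x _ ⟨y, hy, rfl⟩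
    exact ⟨Pool.Agent.Run7.h192.Murre.tp x * y, hc.left _ _ hy, by rw [tp_mul, tp_tp]⟩
  · have h1 : ∀ n, (c.map Pool.Agent.Run7.h192.Murre.tp * NI C X) ^ n ≤
        ((NI C X * c) ^ n).map Pool.Agent.Run7.h192.Murre.tp := by
      intro n
      induction n with
      | zero =>
        rw [pow_zero, pow_zero, Submodule.one_le]
        exact ⟨1, Submodule.one_le.1 le_rfl, tp_one⟩
      | succ n ih =>
        rw [pow_succ, pow_succ']
        refine (mul_le_mul' ih ?_).trans (map_tp_mul _ _)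
        conv_lhs => rw [← hI]
        exact map_tp_mul _ _
    have h2 : (NI C X * c) ^ (N + 1) = ⊥ := by
      rw [pow_succ, ← mul_assoc, mul_pow_mul, hN, Submodule.mul_bot, Submodule.bot_mul]
    rw [eq_bot_iff]
    refine (h1 (N + 1)).trans ?_
    rw [h2, Submodule.map_bot]

end Run7.h43.SD
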