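import Pool.Agent.Run7.h43.SD.Defs

/-!
# Generation by a class of varieties: definitions
-/

open CategoryTheory Pool.Agent.H914 Pool.Agent.H914.VarClass.Obj Pool.Agent.R903

universe u v w

namespace Run7.h43.SD

variable {k : Type u} [Field k] {𝒱 : VarClass k} {C : ChowTheory.{u, v} 𝒱}

/-- `H^j(Y)` is generated by the varieties in `𝒳`: it is contained in the span of the images
`α_* H(X)` of all correspondences `α` from varieties `X` in `𝒳` to `Y`. -/
def GenBy (W : WeilTheory.{u, v, w} C) (𝒳 : Set 𝒱.Obj) (Y : 𝒱.Obj) (j : ℕ) : Prop :=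
  W.gr Y j ≤ Submodule.span W.K {y | ∃ X ∈ 𝒳, ∃ α : C.CH (X.prod Y), ∃ a, y = W.act α a}

/-- Numerically trivial cycles on `X × Y` are homologically trivial. -/
def HomEqNum (W : WeilTheory.{u, v, w} C) (X Y : 𝒱.Obj) : Prop :=
  ∀ γ : C.CH (X.prod Y), NumTrivial C γ → W.cl _ γ = 0

/-- The `j`-th Künneth component of the diagonal of `X` is algebraic. -/
def KunnethAlg (W : WeilTheory.{u, v, w} C) (X : 𝒱.Obj) (j : ℕ) : Prop :=
  ∃ π ∈ C.gr (X.prod X) X.dim, IsProjector (W.gr X) j (W.act π)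

end Run7.h43.SD
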