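import Pool.Agent.Run7.h43.SD.Gate

/-!
# Self-dual Chow–Künneth decompositions from tame Künneth projectors
-/

set_option autoImplicit false

open CategoryTheory CategoryTheory.Limits AlgebraicGeometry Finset
open Pool.Agent.H914 Pool.Agent.H914.VarClass Pool.Agent.H914.VarClass.Obj Pool.Agent.R903
open Pool.Agent.Run7.h192.Murre

universe u v w

namespace Run7.h43.SD

variable {k : Type u} [Field k] {𝒱 : VarClass k} {C : ChowTheory.{u, v} 𝒱}
  {W : WeilTheory.{u, v, w} C} {X Y Z : 𝒱.Obj}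

/-- the operator `x` acts on `H^l` as the scalar `l - dim X` -/
def WOp (W : WeilTheory.{u, v, w} C) (z : R0 C X) : Prop :=
  ∀ l ≤ 2 * X.dim, ∀ x ∈ W.gr X l, ac W z x = ((l : W.K) - X.dim) • x

lemma ac_add (a b : R0 C X) (x : W.H X) : ac W (a + b) x = ac W a x + ac W b x := by
  rw [ac, map_add, W.act_add, LinearMap.add_apply]; rfl

lemma ac_zero (x : W.H X) : ac W (0 : R0 C X) x = 0 := by
  rw [ac, map_zero, W.act_zero, LinearMap.zero_apply]

/-- Polynomials in an operator with an eigenvector. -/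
lemma ac_aeval {z : R0 C X} {x : W.H X} {l : ℚ} (h : ac W z x = (l : W.K) • x)
    (c : Polynomial ℚ) : ac W (Polynomial.aeval z c) x = ((c.eval l : ℚ) : W.K) • x := by
  have hpow : ∀ n : ℕ, ac W (z ^ n) x = ((l ^ n : ℚ) : W.K) • x := by
    intro n
    induction n with
    | zero => rw [pow_zero, ac_one, pow_zero, Rat.cast_one, one_smul]
    | succ n ih =>
      rw [pow_succ, ac_mul, h, ac_lin, ih, smul_smul, pow_succ, Rat.cast_mul, mul_comm]
  induction c using Polynomial.induction_on' with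
  | add p q hp hq =>
    rw [map_add, ac_add, hp, hq, Polynomial.eval_add, Rat.cast_add, add_smul]
  | monomial n a =>
    rw [Polynomial.aeval_monomial, ← Algebra.smul_def, ac_smul, hpow, Polynomial.eval_monomial,
      smul_smul, Rat.cast_mul]

lemma ac_qj {c : ℤ → Polynomial ℚ} {P : Polynomial ℚ} {z : R0 C X}
    (hc : ∀ n : ℤ, n ≠ 0 → Sel P (n : ℚ) (c n)) (hP : Polynomial.aeval z P = 0)
    (hz : WOp W z) {l : ℕ} (hl : l ≤ 2 * X.dim) {x : W.H X} (hx : x ∈ W.gr X l) {j : ℕ}
    (hj : j ≠ X.dim) : ac W (qj c X.dim z j) x = if l = j then x else 0 := by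
  by_cases hx0 : x = 0
  · rw [hx0, ac_zero_right, ite_self]
  have h1 : ac W z x = (((l : ℚ) - X.dim : ℚ) : W.K) • x := by
    rw [hz l hl x hx]; push_cast; rfl
  have h0 : P.eval ((l : ℚ) - X.dim) = 0 := by
    have h2 := ac_aeval h1 P
    rw [hP, ac_zero] at h2
    have h3 := (smul_eq_zero.1 h2.symm).resolve_right hx0
    exact_mod_cast h3
  unfold qj
  by_cases h : j ≤ 2 * X.dim ∧ j ≠ X.dim
  · rw [if_pos h, ac_aeval h1]
    have hn : (j : ℤ) - X.dim ≠ 0 := by omega
    have hS := hc _ hn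
    have e : (((j : ℤ) - X.dim : ℤ) : ℚ) = (j : ℚ) - X.dim := by push_cast; ring
    rw [e] at hS
    split_ifs with hlj
    · subst hlj
      rw [hS.val h0, Rat.cast_one, one_smul]
    · rw [hS.eval_ne h0, Rat.cast_zero, zero_smul]
      intro h5
      apply hlj
      have h6 : (l : ℚ) = j := by linarith
      exact_mod_cast h6
  · rw [if_neg h, ac_zero, if_neg]
    rintro rfl
    exact h ⟨hl, hj⟩

lemma ac_QQ {c : ℤ → Polynomial ℚ} {P : Polynomial ℚ} {z : R0 C X}
    (hc : ∀ n : ℤ, n ≠ 0 → Sel P (n : ℚ) (c n)) (hP : Polynomial.aeval z P = 0)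
    (hz : WOp W z) (l : ℕ) (x : W.H X) (hx : x ∈ W.gr X l) (j : ℕ) :
    ac W (QQ c X.dim z j) x = if l = j then x else 0 := by
  by_cases hl : l ≤ 2 * X.dim
  swap
  · rw [W.gr_eq_bot X l (by omega), Submodule.mem_bot] at hx
    rw [hx, ac_zero_right, ite_self]
  unfold QQ
  split_ifs with hj hlj hlj
  · rw [ac_sub, ac_one, ac_sum, Finset.sum_eq_zero, sub_zero]
    intro i _
    by_cases hi : i = X.dim
    · rw [hi, qj_mid, ac_zero]
    · rw [ac_qj hc hP hz hl hx hi, if_neg (by omega)]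
  · rw [ac_sub, ac_one, ac_sum, Finset.sum_eq_single l, sub_eq_zero]
    · rw [ac_qj hc hP hz hl hx (by omega), if_pos rfl]
    · intro i _ hi
      by_cases hi' : i = X.dim
      · rw [hi', qj_mid, ac_zero]
      · rw [ac_qj hc hP hz hl hx hi', if_neg (Ne.symm hi)]
    · intro h
      exact absurd (Finset.mem_range.2 (by omega)) h
  · rw [ac_qj hc hP hz hl hx hj, if_pos hlj]
  · rw [ac_qj hc hP hz hl hx hj, if_neg hlj]

/-- A self-dual tame decomposition from an antisymmetric small operator. -/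
theorem exists_of_operator {z : R0 C X} (hz : WOp W z) (hs : Small (NI C X) z)
    (hτ : tp z = -z) : ∃ π : ℕ → C.CH (X.prod X), IsTameCK W X π ∧ SelfDual C π ∧
      ∀ u : R0 C X, Commute z u → ∀ j, C.comp (π j) (ud u) = C.comp (ud u) (π j) := by
  obtain ⟨m, f, hf⟩ := exists_coord W X
  obtain ⟨P0, hP0, hP0'⟩ := hs.algebraic f hf
  set P : Polynomial ℚ := P0 * P0.comp (-Polynomial.X) with hPdef
  have hcomp : P0.comp (-Polynomial.X) ≠ 0 := by
    intro h
    apply hP0
    rw [← comp_neg_neg P0, h, Polynomial.zero_comp]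
  have hPne : P ≠ 0 := mul_ne_zero hP0 hcomp
  have hPe : P.comp (-Polynomial.X) = P := by
    rw [hPdef, Polynomial.mul_comp, comp_neg_neg, mul_comm]
  have hP : Polynomial.aeval z P = 0 := by rw [hPdef, map_mul, hP0', zero_mul]
  obtain ⟨c, hc, hc'⟩ := exists_system hPne hPe
  have hsys : Sys (QQ c X.dim z) (2 * X.dim + 1) := sys_QQ hc hP
  refine ⟨fun j => ud (QQ c X.dim z j), ⟨⟨fun j => ud_mem _, fun j => ?_, fun i j hij => ?_, ?_,
    fun j l x hx => ?_⟩, fun j hj => ?_⟩, fun j hj => ?_, fun u hu j => ?_⟩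
  · rw [← ud_mul, hsys.idem]
  · rw [← ud_mul, hsys.orth j i (Ne.symm hij), map_zero]
  · rw [← map_sum, hsys.sum, ud_one]
  · exact ac_QQ hc hP hz l x hx j
  · refine isTame_of_small (hsys.idem j) ?_
    obtain ⟨y, hy⟩ := qj_factor (d := X.dim) hc hP j
    rw [QQ, if_neg hj, hy]
    exact hs.mul_right y
  · change C.transp _ = _
    rw [← ud_tp, tau_QQ tp_one tp_mul hτ hc' hj]
  · have h1 := QQ_comm (c := c) (d := X.dim) hu j
    rw [← ud_mul, ← ud_mul]
    exact congrArg ud h1.eq.symm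

end Run7.h43.SD
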