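import Pool.Agent.Run7.h43.SD.Alg
import Pool.Agent.Run7.h192.Murre.Ring

/-!
# Self-dual systems of idempotents from an antisymmetric algebraic element
-/

set_option autoImplicit false

namespace Run7.h43.SD

open Polynomial Finset Pool.Agent.Run7.h192.Murre

variable {E : Type*} [Ring E] [Algebra ℚ E]

lemma tau_pow {τ : E →ₗ[ℚ] E} (h1 : τ 1 = 1) (hm : ∀ a b, τ (a * b) = τ b * τ a) (z : E)
    (n : ℕ) : τ (z ^ n) = τ z ^ n := by
  induction n with
  | zero => rw [pow_zero, pow_zero, h1]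
  | succ n ih => rw [pow_succ, hm, ih, pow_succ']

lemma tau_aeval {τ : E →ₗ[ℚ] E} (h1 : τ 1 = 1) (hm : ∀ a b, τ (a * b) = τ b * τ a) (z : E)
    (c : ℚ[X]) : τ (aeval z c) = aeval (τ z) c := by
  induction c using Polynomial.induction_on' with
  | add p q hp hq => rw [map_add, map_add, map_add, hp, hq]
  | monomial n a =>
    rw [aeval_monomial, aeval_monomial, ← Algebra.smul_def, ← Algebra.smul_def, map_smul,
      tau_pow h1 hm]

lemma aeval_neg_comp (z : E) (c : ℚ[X]) : aeval (-z) c = aeval z (c.comp (-X)) := by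
  rw [aeval_comp]
  simp

/-- the projectors for the values `j - d`, `j ≤ 2 d`, `j ≠ d` -/
noncomputable def qj (c : ℤ → ℚ[X]) (d : ℕ) (z : E) (j : ℕ) : E :=
  if j ≤ 2 * d ∧ j ≠ d then aeval z (c ((j : ℤ) - d)) else 0

/-- the system -/
noncomputable def QQ (c : ℤ → ℚ[X]) (d : ℕ) (z : E) (j : ℕ) : E :=
  if j = d then 1 - ∑ i ∈ range (2 * d + 1), qj c d z i else qj c d z j

variable {c : ℤ → ℚ[X]} {d : ℕ} {z : E} {P : ℚ[X]}

lemma qj_mid : qj c d z d = 0 := by simp [qj]

lemma qj_mul (hc : ∀ n : ℤ, n ≠ 0 → Sel P (n : ℚ) (c n)) (hP : aeval z P = 0) (i j : ℕ) :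
    qj c d z i * qj c d z j = if i = j then qj c d z i else 0 := by
  unfold qj
  by_cases hi : i ≤ 2 * d ∧ i ≠ d
  · have hi' : (i : ℤ) - d ≠ 0 := by have := hi.2; omega
    by_cases hij : i = j
    · subst hij
      rw [if_pos hi, if_pos rfl, (hc _ hi').aeval_idem hP]
    · rw [if_pos hi, if_neg hij]
      by_cases hj : j ≤ 2 * d ∧ j ≠ d
      · have hj' : (j : ℤ) - d ≠ 0 := by have := hj.2; omega
        rw [if_pos hj]
        refine (hc _ hi').aeval_orth (hc _ hj') ?_ hP
        intro h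
        have : (i : ℤ) - d = j - d := by exact_mod_cast h
        omega
      · rw [if_neg hj, mul_zero]
  · rw [if_neg hi, zero_mul, ite_self]

lemma sum_mul_qj (hc : ∀ n : ℤ, n ≠ 0 → Sel P (n : ℚ) (c n)) (hP : aeval z P = 0) (j : ℕ) :
    (∑ i ∈ range (2 * d + 1), qj c d z i) * qj c d z j = qj c d z j := by
  rw [Finset.sum_mul, Finset.sum_congr rfl fun i _ => qj_mul hc hP i j, Finset.sum_ite_eq']
  by_cases hj : j ∈ range (2 * d + 1)
  · rw [if_pos hj]
  · rw [if_neg hj, qj, if_neg]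
    rw [Finset.mem_range] at hj
    omega

lemma qj_mul_sum (hc : ∀ n : ℤ, n ≠ 0 → Sel P (n : ℚ) (c n)) (hP : aeval z P = 0) (j : ℕ) :
    qj c d z j * (∑ i ∈ range (2 * d + 1), qj c d z i) = qj c d z j := by
  rw [Finset.mul_sum, Finset.sum_congr rfl fun i _ => qj_mul hc hP j i, Finset.sum_ite_eq]
  by_cases hj : j ∈ range (2 * d + 1)
  · rw [if_pos hj]
  · rw [if_neg hj, qj, if_neg]
    rw [Finset.mem_range] at hj
    omega

lemma sum_mul_sum (hc : ∀ n : ℤ, n ≠ 0 → Sel P (n : ℚ) (c n)) (hP : aeval z P = 0) :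
    (∑ i ∈ range (2 * d + 1), qj c d z i) * (∑ i ∈ range (2 * d + 1), qj c d z i) =
      ∑ i ∈ range (2 * d + 1), qj c d z i := by
  rw [Finset.mul_sum]
  exact Finset.sum_congr rfl fun j _ => sum_mul_qj hc hP j

lemma sys_QQ (hc : ∀ n : ℤ, n ≠ 0 → Sel P (n : ℚ) (c n)) (hP : aeval z P = 0) :
    Sys (QQ c d z) (2 * d + 1) where
  idem j := by
    unfold QQ
    split_ifs with h
    · rw [mul_sub, sub_mul, sub_mul, sum_mul_sum hc hP]
      simp
    · rw [qj_mul hc hP, if_pos rfl]
  orth i j hij := by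
    unfold QQ
    by_cases hi : i = d
    · rw [if_pos hi, if_neg (by omega), sub_mul, one_mul, sum_mul_qj hc hP, sub_self]
    · by_cases hj : j = d
      · rw [if_neg hi, if_pos hj, mul_sub, mul_one, qj_mul_sum hc hP, sub_self]
      · rw [if_neg hi, if_neg hj, qj_mul hc hP, if_neg hij]
  sum := by
    have h1 : ∀ j ∈ range (2 * d + 1), QQ c d z j = qj c d z j +
        if j = d then 1 - ∑ i ∈ range (2 * d + 1), qj c d z i else 0 := by
      intro j _
      unfold QQ
      split_ifs with h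
      · rw [h, qj_mid, zero_add]
      · rw [add_zero]
    rw [Finset.sum_congr rfl h1, Finset.sum_add_distrib, Finset.sum_ite_eq', if_pos]
    · abel
    · rw [Finset.mem_range]; omega
  zero j hj := by
    unfold QQ qj
    rw [if_neg (by omega), if_neg (by omega)]

lemma tau_qj {τ : E →ₗ[ℚ] E} (h1 : τ 1 = 1) (hm : ∀ a b, τ (a * b) = τ b * τ a)
    (hz : τ z = -z) (hc' : ∀ n : ℤ, (c n).comp (-X) = c (-n)) {j : ℕ} (hj : j ≤ 2 * d) :
    τ (qj c d z j) = qj c d z (2 * d - j) := by
  unfold qj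
  by_cases h : j = d
  · rw [if_neg (by omega), if_neg (by omega), map_zero]
  · rw [if_pos ⟨hj, h⟩, if_pos (by omega), tau_aeval h1 hm, hz, aeval_neg_comp, hc']
    congr 2
    omega

lemma tau_QQ {τ : E →ₗ[ℚ] E} (h1 : τ 1 = 1) (hm : ∀ a b, τ (a * b) = τ b * τ a)
    (hz : τ z = -z) (hc' : ∀ n : ℤ, (c n).comp (-X) = c (-n)) {j : ℕ} (hj : j ≤ 2 * d) :
    τ (QQ c d z j) = QQ c d z (2 * d - j) := by
  unfold QQ
  by_cases h : j = d
  · rw [if_pos h, if_pos (by omega), map_sub, map_sum, h1]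
    congr 1
    have h2 := Finset.sum_range_reflect (fun i => qj c d z i) (2 * d + 1)
    rw [← h2]
    refine Finset.sum_congr rfl fun i hi => ?_
    rw [Finset.mem_range] at hi
    rw [tau_qj h1 hm hz hc' (by omega), Nat.add_sub_cancel]
  · rw [if_neg h, if_neg (by omega), tau_qj h1 hm hz hc' hj]

/-- The projectors commute with everything that commutes with `z`. -/
lemma qj_comm {u : E} (hu : Commute z u) (j : ℕ) : Commute (qj c d z j) u := by
  unfold qj
  split_ifs
  · induction c ((j : ℤ) - d) using Polynomial.induction_on' with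
    | add p q hp hq => rw [map_add]; exact hp.add_left hq
    | monomial n a =>
      rw [aeval_monomial]
      exact (Algebra.commute_algebraMap_left a u).mul_left (hu.pow_left n)
  · exact Commute.zero_left u

lemma QQ_comm {u : E} (hu : Commute z u) (j : ℕ) : Commute (QQ c d z j) u := by
  unfold QQ
  split_ifs
  · exact (Commute.one_left u).sub_left (Commute.sum_left _ _ _ fun i _ => qj_comm hu i)
  · exact qj_comm hu j

lemma qj_factor (hc : ∀ n : ℤ, n ≠ 0 → Sel P (n : ℚ) (c n)) (hP : aeval z P = 0) (j : ℕ) :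
    ∃ y, qj c d z j = z * y := by
  unfold qj
  split_ifs with h
  · have h' : (j : ℤ) - d ≠ 0 := by have := h.2; omega
    exact (hc _ h').aeval_factor (by exact_mod_cast h') hP
  · exact ⟨0, by rw [mul_zero]⟩

end Run7.h43.SD
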