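import Pool.Agent.Run7.h43.SD.Defs
import Pool.Agent.Run7.h43.SD.Sys
import Pool.Agent.Run7.h192.Murre.Trunc

/-!
# Numerically trivial correspondences
-/

set_option autoImplicit false

open CategoryTheory CategoryTheory.Limits AlgebraicGeometry Finset
open Pool.Agent.H914 Pool.Agent.H914.VarClass Pool.Agent.H914.VarClass.Obj Pool.Agent.R903
open Pool.Agent.Run7.h192.Murre

universe u v w

namespace Run7.h43.SD

variable {k : Type u} [Field k] {𝒱 : VarClass k} {C : ChowTheory.{u, v} 𝒱}
  (W : WeilTheory.{u, v, w} C) {X Y Z : 𝒱.Obj}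

include W in
lemma deg_push (f : X ⟶ Y) (x : C.CH X) : C.deg Y (C.push f x) = C.deg X x := by
  have h1 : (C.deg Y (C.push f x) : W.K) = (C.deg X x : W.K) := by
    rw [← W.tr_cl, ← W.tr_cl, W.cl_push]
    have h2 := W.tr_push f (W.cl X x) 1
    rwa [mul_one, map_one, mul_one] at h2
  exact_mod_cast h1

include W in
lemma deg_swap (c : C.CH (Y.prod X)) :
    C.deg (X.prod Y) (C.pull (swap X Y) c) = C.deg (Y.prod X) c := by
  have h1 : (C.deg (X.prod Y) (C.pull (swap X Y) c) : W.K) = (C.deg (Y.prod X) c : W.K) := by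
    rw [← W.tr_cl, ← W.tr_cl, W.cl_pull, W.tr_map_swap]
  exact_mod_cast h1

/-- the trace -/
noncomputable def trC (γ : C.CH (X.prod X)) : ℚ := C.deg (X.prod X) (C.diagC X * γ)

lemma isIso_p13 : IsIso (lift (p13 X Y Z) (snd X (Y.prod Z) ≫ fst Y Z)) := by
  refine isIso_of (lift (fst _ _ ≫ fst _ _) (lift (snd _ _) (fst _ _ ≫ snd _ _))) ?_ ?_
  · apply hom_ext_prod
    · simp
    · apply hom_ext_prod <;> simp
  · apply hom_ext_prod
    · apply hom_ext_prod <;> simp
    · simp

include W in
lemma trC_comp (α : C.CH (X.prod Y)) (β : C.CH (Y.prod X)) :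
    trC (C.comp α β) = C.deg (X.prod Y) (α * C.transp β) := by
  set f' : X.prod Y ⟶ X.prod (Y.prod X) := lift (fst X Y) (swap X Y) with hf'
  have e1 : f' ≫ p12 X Y X = 𝟙 _ := by
    apply hom_ext_prod <;> simp [hf']
  have e2 : f' ≫ snd X (Y.prod X) = swap X Y := by simp [hf']
  have h1 : C.pull (p13 X Y X) (C.push (diag X) 1) = C.push f' (C.pull (fst X Y) 1) := by
    refine C.base_change (T := Y) (diag X) f' (fst X Y) (p13 X Y X)
      (snd X _ ≫ fst Y X) ?_ isIso_p13 ?_ 1
    · apply hom_ext_prod <;> simp [hf']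
    · have : f' ≫ snd X (Y.prod X) ≫ fst Y X = snd X Y := by simp [hf']
      rw [this]; exact isIso_lift_fst_snd
  rw [trC, ChowTheory.comp, ← C.mul_push, deg_push W, ChowTheory.diagC, h1, map_one, ← C.push_mul,
    deg_push W, one_mul, C.pull_mul, ← C.pull_comp, ← C.pull_comp, e1, e2, C.pull_id]
  rfl

include W in
lemma trC_comm (α : C.CH (X.prod Y)) (β : C.CH (Y.prod X)) :
    trC (C.comp α β) = trC (C.comp β α) := by
  rw [trC_comp W, trC_comp W, ← deg_swap W (β * C.transp α)]
  congr 1
  rw [C.pull_mul, mul_comm]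
  congr 1
  exact (transp_transp α).symm

include W in
lemma numTrivial_iff (γ : C.CH (X.prod Y)) :
    NumTrivial C γ ↔ ∀ δ : C.CH (Y.prod X), trC (C.comp γ δ) = 0 := by
  constructor
  · intro h δ
    rw [trC_comp W]
    exact h _
  · intro h δ
    have := h (C.transp δ)
    rwa [trC_comp W, transp_transp] at this

include W in
lemma NumTrivial.comp_left {x : C.CH (X.prod Y)} (h : NumTrivial C x) (β : C.CH (Z.prod X)) :
    NumTrivial C (C.comp β x) := by
  rw [numTrivial_iff W] at h ⊢
  intro δ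
  rw [C.comp_assoc, trC_comm W, C.comp_assoc]
  exact h _

include W in
lemma NumTrivial.comp_right {x : C.CH (X.prod Y)} (h : NumTrivial C x) (α : C.CH (Y.prod Z)) :
    NumTrivial C (C.comp x α) := by
  rw [numTrivial_iff W] at h ⊢
  intro δ
  rw [C.comp_assoc]
  exact h _

/-- Homologically trivial correspondences are numerically trivial. -/
lemma numTrivial_of_act {γ : C.CH (X.prod Y)} (h : ∀ a, W.act γ a = 0) : NumTrivial C γ := by
  intro δ
  have h1 : ∀ c, W.tr (X.prod Y) (W.cl _ γ * c) = 0 := by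
    intro c
    refine W.kunneth_induction (p := fun c => W.tr (X.prod Y) (W.cl _ γ * c) = 0) ?_ ?_ c
    · intro a b ha hb
      rw [mul_add, map_add, ha, hb, add_zero]
    · intro i j a _ b _
      rw [← mul_assoc, ← W.tr_push]
      have h2 := h a
      rw [W.act_apply] at h2
      rw [h2, zero_mul, map_zero]
  have h2 := h1 (W.cl _ δ)
  rw [← W.cl_mul, W.tr_cl] at h2
  exact_mod_cast h2

variable (C X) in
/-- The ideal of the numerically trivial correspondences of degree zero. -/
noncomputable def NI : Submodule ℚ (R0 C X) where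
  carrier := {a | NumTrivial C (ud a)}
  zero_mem' := fun δ => by rw [map_zero, zero_mul, map_zero]
  add_mem' := fun {a b} ha hb δ => by
    rw [map_add, add_mul, map_add, ha δ, hb δ, add_zero]
  smul_mem' := fun q a ha δ => by
    rw [map_smul, smul_mul_assoc, map_smul, ha δ, smul_zero]

lemma mem_NI {a : R0 C X} : a ∈ NI C X ↔ NumTrivial C (ud a) := Iff.rfl

include W in
lemma two_NI : Two (NI C X) where
  left x y hy := by
    rw [mem_NI, ud_mul]
    exact NumTrivial.comp_right W hy _
  right x y hy := by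
    rw [mem_NI, ud_mul]
    exact NumTrivial.comp_left W hy _

include W in
/-- The correspondences modulo numerical equivalence are finite-dimensional. -/
lemma exists_coord (X : 𝒱.Obj) : ∃ (m : ℕ) (f : R0 C X →ₗ[ℚ] (Fin m → ℚ)),
    ∀ a, f a = 0 → a ∈ NI C X := by
  have hfin : Module.Finite W.K (W.H (X.prod X)) := (W.isPoincareAlgebra (X.prod X)).finite
  set S : Set (W.H (X.prod X)) := Set.range (W.cl (X.prod X)) with hS
  obtain ⟨s, hs, hspan⟩ := (Submodule.fg_span_iff_fg_span_finset_subset S).1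
    (IsNoetherian.noetherian (Submodule.span W.K S))
  have hc : ∀ x : s, ∃ δ : C.CH (X.prod X), W.cl _ δ = x := fun x => by
    have := hs x.2
    rwa [hS] at this
  choose δ hδ using hc
  let e := s.equivFin
  refine ⟨s.card, LinearMap.pi fun i => (C.deg (X.prod X)) ∘ₗ
    (LinearMap.mulRight ℚ (δ (e.symm i))) ∘ₗ ud, fun a ha => ?_⟩
  intro η
  have h1 : ∀ x : s, W.tr (X.prod X) (W.cl _ (ud a) * x) = 0 := by
    intro x
    have h2 := congrFun ha (e x)
    simp only [LinearMap.pi_apply, LinearMap.comp_apply, LinearMap.mulRight_apply,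
      Equiv.symm_apply_apply, Pi.zero_apply] at h2
    rw [← hδ x, ← W.cl_mul, W.tr_cl, h2, Rat.cast_zero]
  have h2 : ∀ y ∈ Submodule.span W.K (s : Set (W.H (X.prod X))),
      W.tr (X.prod X) (W.cl _ (ud a) * y) = 0 := by
    intro y hy
    refine Submodule.span_induction (p := fun y _ => W.tr (X.prod X) (W.cl _ (ud a) * y) = 0)
      ?_ ?_ ?_ ?_ hy
    · intro x hx; exact h1 ⟨x, hx⟩
    · rw [mul_zero, map_zero]
    · intro x y _ _ hx hy; rw [mul_add, map_add, hx, hy, add_zero]
    · intro c x _ hx; rw [mul_smul_comm, map_smul, hx, smul_zero]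
  have h3 := h2 (W.cl _ η) (by
    rw [← hspan]
    exact Submodule.subset_span ⟨η, rfl⟩)
  rw [← W.cl_mul, W.tr_cl] at h3
  exact_mod_cast h3

end Run7.h43.SD
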