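import Pool.Agent.Run7.h43.SD.Rel

/-!
# Künneth projectors through two classes of varieties
-/

set_option autoImplicit false

open CategoryTheory CategoryTheory.Limits AlgebraicGeometry Finset
open Pool.Agent.H914 hiding IsProjector
open Pool.Agent.H914.VarClass Pool.Agent.H914.VarClass.Obj Pool.Agent.R903
open Pool.Agent.Run7.h192.Murre

universe u v w

namespace Run7.h43.SD

variable {k : Type u} [Field k] {𝒱 : VarClass k} {C : ChowTheory.{u, v} 𝒱}
  {W : WeilTheory.{u, v, w} C} {X Y Z : 𝒱.Obj} {𝒳' 𝒳 : Set 𝒱.Obj} {j : ℕ}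

lemma tr_homog (hj : j ≤ 2 * Y.dim) {y : W.H Y} (hy : y ∈ W.gr Y j)
    (h : ∀ z ∈ W.gr Y (2 * Y.dim - j), W.tr Y (y * z) = 0) : y = 0 := by
  apply W.nondeg
  intro z
  refine gr_induction (W.isInternal Y) (p := fun z => W.tr Y (y * z) = 0) ?_ ?_ z
  · intro l a ha
    by_cases hl : l = 2 * Y.dim - j
    · subst hl; exact h a ha
    · exact W.tr_eq_zero (W.mul_mem hy ha) (by omega)
  · intro a b ha hb
    rw [mul_add, map_add, ha, hb, add_zero]

/-- sufficiency -/
lemma exists_projector (hX : IsBase W 𝒳' 𝒳) (hj : j ≤ 2 * Y.dim)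
    (h : W.gr Y j ≤ genPart W 𝒳 Y j)
    (h' : W.gr Y (2 * Y.dim - j) ≤ genPart W 𝒳' Y (2 * Y.dim - j)) :
    ∃ e ∈ tj W 𝒳' 𝒳 Y Y j Y.dim, IsProjector (W.gr Y) j (W.act e) := by
  have hnd : NonDeg W 𝒳' 𝒳 j (C.diagC Y) j := by
    intro y hy hz
    rw [W.act_diagC] at hz ⊢
    exact tr_homog hj (genPart_le hy) fun z hz' => hz z (h' hz')
  obtain ⟨e, he, he'⟩ := exists_inverse hX hj rfl (by omega) (C.diagC_mem Y) hnd
  refine ⟨e, he, fun l a ha => ?_⟩
  split_ifs with hl
  · subst hl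
    have h1 := he' a (h ha)
    rwa [W.act_diagC, W.act_diagC] at h1
  · exact tj_kill rfl he hl ha

/-- the image of a correspondence through the classes is generated -/
lemma through_map {q i : ℕ} (hq : i + 2 * q = j + 2 * Y.dim) {π : C.CH (Y.prod Z)}
    (hπ : π ∈ through C 𝒳' 𝒳 Y Z q) {y : W.H Y} (hy : y ∈ W.gr Y i) :
    W.act π y ∈ genPart W 𝒳 Z j := by
  refine Submodule.span_induction (p := fun π _ => W.act π y ∈ genPart W 𝒳 Z j) ?_ ?_ ?_ ?_ hπ
  · rintro _ ⟨X', hX', X, hX, e, f, c, β, δ, α, hβ, hδ, hα, hc, rfl⟩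
    rw [W.act_comp _ hα, W.act_comp _ hδ]
    rcases act_zero_or hβ hy with h1 | ⟨m, hm, hm'⟩
    · rw [h1, map_zero, map_zero]; exact Submodule.zero_mem _
    rcases act_zero_or hδ hm with h1 | ⟨n, hn, hn'⟩
    · rw [h1, map_zero]; exact Submodule.zero_mem _
    exact Submodule.subset_span ⟨X, hX, n, c, α, _, hα, hn, by omega, rfl⟩
  · rw [W.act_zero, LinearMap.zero_apply]; exact Submodule.zero_mem _
  · intro x y _ _ hx hy
    rw [W.act_add, LinearMap.add_apply]; exact Submodule.add_mem _ hx hy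
  · intro q x _ hx
    rw [W.act_smul, LinearMap.smul_apply]; exact Submodule.smul_mem _ _ hx

lemma through_transp {q : ℕ} {π : C.CH (Y.prod Z)} (hπ : π ∈ through C 𝒳' 𝒳 Y Z q) :
    C.transp π ∈ through C 𝒳 𝒳' Z Y q := by
  refine Submodule.span_induction (p := fun π _ => C.transp π ∈ through C 𝒳 𝒳' Z Y q)
    ?_ ?_ ?_ ?_ hπ
  · rintro _ ⟨X', hX', X, hX, e, f, c, β, δ, α, hβ, hδ, hα, hc, rfl⟩
    rw [← C.comp_transp, ← C.comp_transp, ← C.comp_assoc]
    exact Submodule.subset_span ⟨X, hX, X', hX', c, f, e, _, _, _, C.transp_mem hα,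
      C.transp_mem hδ, C.transp_mem hβ, by omega, rfl⟩
  · rw [C.transp_zero]; exact Submodule.zero_mem _
  · intro x y _ _ hx hy
    have h1 : C.transp (x + y) = C.transp x + C.transp y := by
      rw [ChowTheory.transp, map_add]; rfl
    rw [h1]; exact Submodule.add_mem _ hx hy
  · intro q x _ hx
    have h1 : C.transp (q • x) = q • C.transp x := by
      rw [ChowTheory.transp, map_smul]; rfl
    rw [h1]; exact Submodule.smul_mem _ _ hx

lemma projector_transp {π : C.CH (Y.prod Y)} (hπ : π ∈ C.gr (Y.prod Y) Y.dim)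
    (h : IsProjector (W.gr Y) j (W.act π)) (hj : j ≤ 2 * Y.dim) :
    IsProjector (W.gr Y) (2 * Y.dim - j) (W.act (C.transp π)) := by
  intro l a ha
  by_cases hl : l ≤ 2 * Y.dim
  swap
  · rw [W.gr_eq_bot Y l (by omega), Submodule.mem_bot] at ha
    rw [ha, map_zero, ite_self]
  rw [W.act_transp, W.coact_scal hπ (fun m => if m = j then 1 else 0) (fun m b hb => ?_) ha]
  · by_cases hlj : l = 2 * Y.dim - j
    · rw [if_pos (by omega), if_pos hlj, one_smul]
    · rw [if_neg (by omega), if_neg hlj, zero_smul]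
  · rw [h m b hb]
    split_ifs
    · rw [one_smul]
    · rw [zero_smul]

/-- **The criterion.** -/
theorem projector_iff (hX : IsBase W 𝒳' 𝒳) (hj : j ≤ 2 * Y.dim) :
    (∃ π ∈ through C 𝒳' 𝒳 Y Y Y.dim, IsProjector (W.gr Y) j (W.act π)) ↔
      W.gr Y j ≤ genPart W 𝒳 Y j ∧
        W.gr Y (2 * Y.dim - j) ≤ genPart W 𝒳' Y (2 * Y.dim - j) := by
  constructor
  · rintro ⟨π, hπ, h⟩
    constructor
    · intro y hy
      have h1 := through_map (W := W) rfl hπ hy
      rwa [h j y hy, if_pos rfl] at h1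
    · intro y hy
      have h1 := through_map (W := W) rfl (through_transp hπ) hy
      rwa [projector_transp (through_le _ (by omega) hπ) h hj _ y hy, if_pos rfl] at h1
  · rintro ⟨h, h'⟩
    obtain ⟨e, he, he'⟩ := exists_projector hX hj h h'
    exact ⟨e, tj_le _ (by omega) he, he'⟩

/-- projectors on one side of the middle give all projectors -/
theorem all_of_above
    (h : ∀ j, Y.dim < j → j ≤ 2 * Y.dim → ∃ e ∈ C.gr (Y.prod Y) Y.dim,
      IsProjector (W.gr Y) j (W.act e)) (l : ℕ) :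
    ∃ e ∈ C.gr (Y.prod Y) Y.dim, IsProjector (W.gr Y) l (W.act e) := by
  have h1 : ∀ l : ℕ, l ≠ Y.dim → ∃ e ∈ C.gr (Y.prod Y) Y.dim,
      IsProjector (W.gr Y) l (W.act e) := by
    intro l hl
    by_cases h2 : l ≤ 2 * Y.dim
    swap
    · refine ⟨0, Submodule.zero_mem _, fun m a ha => ?_⟩
      rw [W.act_zero, LinearMap.zero_apply]
      split_ifs with hm
      · subst hm
        rw [W.gr_eq_bot Y m (by omega), Submodule.mem_bot] at ha
        exact ha.symm
      · rfl
    rcases lt_or_gt_of_ne hl with h3 | h3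
    · obtain ⟨e, he, he'⟩ := h (2 * Y.dim - l) (by omega) (by omega)
      refine ⟨C.transp e, C.transp_mem he, ?_⟩
      have h4 := projector_transp he he' (by omega)
      rwa [show 2 * Y.dim - (2 * Y.dim - l) = l by omega] at h4
    · exact h l h3 h2
  by_cases hl : l = Y.dim
  swap
  · exact h1 l hl
  subst hl
  choose! e he he' using h1
  refine ⟨C.diagC Y - ∑ m ∈ (Finset.range (2 * Y.dim + 1)).erase Y.dim, e m,
    Submodule.sub_mem _ (C.diagC_mem Y) (Submodule.sum_mem _ fun m hm =>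
      he m (Finset.ne_of_mem_erase hm)), fun l a ha => ?_⟩
  rw [W.act_sub, LinearMap.sub_apply, W.act_diagC, W.act_sum, LinearMap.sum_apply]
  by_cases h2 : l ≤ 2 * Y.dim
  swap
  · rw [W.gr_eq_bot Y l (by omega), Submodule.mem_bot] at ha
    subst ha
    simp
  split_ifs with hl
  · rw [Finset.sum_eq_zero, sub_zero]
    intro m hm
    rw [he' m (Finset.ne_of_mem_erase hm) l a ha, if_neg]
    intro h3
    exact Finset.ne_of_mem_erase hm (h3.symm.trans hl)
  · rw [Finset.sum_eq_single l, he' l hl l a ha, if_pos rfl, sub_self]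
    · intro m hm hml
      rw [he' m (Finset.ne_of_mem_erase hm) l a ha, if_neg (Ne.symm hml)]
    · intro h3
      exact absurd (Finset.mem_erase.2 ⟨hl, Finset.mem_range.2 (by omega)⟩) h3

/-- `H(Y)` is generated by `Y` -/
lemma genPart_self : W.gr Y j ≤ genPart W {Y} Y j := fun y hy =>
  Submodule.subset_span ⟨Y, rfl, j, Y.dim, C.diagC Y, y, C.diagC_mem Y, hy, rfl,
    (W.act_diagC y).symm⟩

/-- images of push-forwards are generated -/
lemma push_mem_genPart {r i : ℕ} (hX : X ∈ 𝒳) (f : X ⟶ Y) (hr : X.dim + r = Y.dim)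
    (hi : i + 2 * r = j) {a : W.H X} (ha : a ∈ W.gr X i) : W.push f a ∈ genPart W 𝒳 Y j := by
  refine Submodule.subset_span ⟨X, hX, i, Y.dim, C.graph f, a, C.graph_mem f, ha, by omega, ?_⟩
  rw [ChowTheory.graph, W.act_span, map_one, one_mul, W.map_id]

end Run7.h43.SD
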