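import Pool.Agent.Run7.h43.SD.RelMain
import Pool.Agent.Run7.h43.SD.Exist
import Pool.Agent.Run7.h43.SD.GenDefs

/-!
# Chow–Künneth decompositions from generation outside the middle degree
-/

set_option autoImplicit false

open CategoryTheory CategoryTheory.Limits AlgebraicGeometry Finset
open Pool.Agent.H914 hiding IsProjector
open Pool.Agent.H914.VarClass Pool.Agent.H914.VarClass.Obj Pool.Agent.R903
open Pool.Agent.Run7.h192.Murre

universe u v w

namespace Run7.h43.SD

variable {k : Type u} [Field k] {𝒱 : VarClass k} {C : ChowTheory.{u, v} 𝒱}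
  {W : WeilTheory.{u, v, w} C} {X Y Z : 𝒱.Obj} {𝒳' 𝒳 : Set 𝒱.Obj} {j : ℕ}

/-- compositions through tame varieties are in the tame ideal -/
lemma through_le_tame (hT : ∀ X ∈ 𝒳, IsTame C X (C.diagC X)) :
    through C 𝒳' 𝒳 Y Y Y.dim ≤ tameIdeal C Y := by
  refine Submodule.span_le.2 ?_
  rintro _ ⟨X', hX', X, hX, e, f, c, β, δ, α, hβ, hδ, hα, he, rfl⟩
  by_cases hef : X'.dim ≤ e + f
  · refine Submodule.subset_span ⟨X, C.diagC X, e + f - X'.dim, c, C.comp β δ, α, hT X hX,
      C.comp_mem hβ hδ (by omega), hα, by omega, ?_⟩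
    rw [C.comp_diagC]
  · have h1 : C.comp β δ = 0 := by
      rw [ChowTheory.comp]
      exact C.push_eq_zero _ (C.mul_mem (C.pull_mem _ hβ) (C.pull_mem _ hδ))
        (by simp only [dim_prod]; omega)
    rw [h1, C.zero_comp]
    exact Submodule.zero_mem _

/-- the homogeneous components of the images -/
lemma genBy_le (h : GenBy W 𝒳 Y j) : W.gr Y j ≤ genPart W 𝒳 Y j := by
  set S : Submodule W.K (W.H Y) :=
    Submodule.span W.K {y | ∃ X ∈ 𝒳, ∃ α : C.CH (X.prod Y), ∃ a, y = W.act α a} with hS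
  set p : Module.End W.K (W.H Y) := scal (W.isInternal Y) (fun i => if i = j then 1 else 0) with hp
  have h1 : ∀ z ∈ S, p z ∈ genPart W 𝒳 Y j := by
    intro z hz
    refine Submodule.span_induction (p := fun z _ => p z ∈ genPart W 𝒳 Y j) ?_ ?_ ?_ ?_ hz
    · rintro _ ⟨X, hX, α, a, rfl⟩
      refine gr_induction (C.isInternal (X.prod Y))
        (p := fun α => p (W.act α a) ∈ genPart W 𝒳 Y j) ?_ ?_ α
      · intro c α hα
        refine gr_induction (W.isInternal X)
          (p := fun a => p (W.act α a) ∈ genPart W 𝒳 Y j) ?_ ?_ a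
        · intro i a ha
          rcases act_zero_or hα ha with h2 | ⟨m, hm, hm'⟩
          · rw [h2, map_zero]; exact Submodule.zero_mem _
          · rw [hp, scal_apply _ _ hm]
            split_ifs with hmj
            · rw [one_smul]
              exact Submodule.subset_span ⟨X, hX, i, c, α, a, hα, ha, by omega, rfl⟩
            · rw [zero_smul]; exact Submodule.zero_mem _
        · intro a b ha hb
          rw [map_add, map_add]; exact Submodule.add_mem _ ha hb
      · intro a b ha hb
        rw [W.act_add, LinearMap.add_apply, map_add]; exact Submodule.add_mem _ ha hb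
    · rw [map_zero]; exact Submodule.zero_mem _
    · intro a b _ _ ha hb; rw [map_add]; exact Submodule.add_mem _ ha hb
    · intro c a _ ha; rw [map_smul]; exact Submodule.smul_mem _ _ ha
  intro y hy
  have h2 := h1 y (h hy)
  rwa [hp, scal_apply _ _ hy, if_pos rfl, one_smul] at h2

lemma act_of_cl {γ : C.CH (X.prod Y)} (h : W.cl _ γ = 0) (a : W.H X) : W.act γ a = 0 := by
  rw [WeilTheory.act_apply, h, zero_mul, map_zero]

/-- generation above the middle degree gives half of the tame projectors -/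
theorem halfTame_of_generated (hT : ∀ X ∈ 𝒳, IsTame C X (C.diagC X))
    (hC : ∀ X ∈ 𝒳, ∀ i ≤ 2 * X.dim, KunnethAlg W X i)
    (hD : ∀ X ∈ 𝒳, ∀ X' ∈ 𝒳', HomEqNum W X X')
    (h : ∀ j, Y.dim < j → j ≤ 2 * Y.dim → GenBy W 𝒳 Y j ∧ GenBy W 𝒳' Y (2 * Y.dim - j)) :
    HalfTame W Y := by
  have hX : IsBase W 𝒳' 𝒳 := ⟨hC, fun X' hX' X hX γ hγ => act_of_cl (hD X hX X' hX' γ hγ)⟩
  intro j hj
  obtain ⟨h1, h2⟩ := h (2 * Y.dim - j) (by omega) (by omega)
  obtain ⟨e, he, he'⟩ := exists_projector hX (by omega) (genBy_le h1) (genBy_le h2)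
  exact ⟨e, through_le_tame hT (tj_le _ (by omega) he), Or.inr he'⟩

end Run7.h43.SD
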