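import Pool.Agent.Run7.h43.SD.Num
import Pool.Agent.R903.CK

/-!
# The trace formula
-/

set_option autoImplicit false

open CategoryTheory CategoryTheory.Limits AlgebraicGeometry Finset TensorProduct
open Pool.Agent.H914 Pool.Agent.H914.VarClass Pool.Agent.H914.VarClass.Obj Pool.Agent.R903
open Pool.Agent.Run7.h192.Murre

universe u v w

namespace Run7.h43.SD

variable {k : Type u} [Field k] {𝒱 : VarClass k} {C : ChowTheory.{u, v} 𝒱}
  (W : WeilTheory.{u, v, w} C) {X Y Z : 𝒱.Obj}

lemma trace_smulRight {K V : Type*} [Field K] [AddCommGroup V] [Module K V] [Module.Finite K V]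
    (f : V →ₗ[K] K) (b : V) : LinearMap.trace K V (f.smulRight b) = f b := by
  have h1 : f.smulRight b = dualTensorHom K V V (f ⊗ₜ b) := by
    ext x; simp
  rw [h1]
  rw [LinearMap.trace_eq_contract_apply]
  simp

/-- the sign operator -/
noncomputable def sgn (X : 𝒱.Obj) : Module.End W.K (W.H X) :=
  scal (W.isInternal X) (fun i => (-1) ^ i)

/-- the operator of a cohomology class -/
noncomputable def opc (c : W.H (X.prod X)) : Module.End W.K (W.H X) :=
  corrOp (W.map (fst X X)) (W.push (snd X X)) c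

lemma opc_apply (c : W.H (X.prod X)) (x : W.H X) :
    opc W c x = W.push (snd X X) (c * W.map (fst X X) x) := rfl

lemma opc_add (c d : W.H (X.prod X)) : opc W (c + d) = opc W c + opc W d := by
  ext x
  rw [LinearMap.add_apply, opc_apply, opc_apply, opc_apply, add_mul, map_add]

lemma sign_aux {K : Type*} [Field K] {i j n : ℕ} (h : i + j = 2 * n) (l : ℕ) :
    (-1 : K) ^ (l * i) = (-1 : K) ^ (l * j) := by
  have h1 : (-1 : K) ^ (l * i) * (-1 : K) ^ (l * j) = 1 := by
    rw [← pow_add, ← mul_add, h, mul_left_comm, pow_mul]; simp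
  have h2 : (-1 : K) ^ (l * j) * (-1 : K) ^ (l * j) = 1 := by
    rw [← pow_add, ← two_mul, pow_mul]; simp
  calc (-1 : K) ^ (l * i) = (-1 : K) ^ (l * i) * ((-1 : K) ^ (l * j) * (-1 : K) ^ (l * j)) := by
        rw [h2, mul_one]
    _ = _ := by rw [← mul_assoc, h1, one_mul]

lemma opc_prod {i j : ℕ} {a b : W.H X} (ha : a ∈ W.gr X i) (hb : b ∈ W.gr X j) :
    opc W (W.map (fst X X) a * W.map (snd X X) b) =
      (-1 : W.K) ^ (j * i) • (W.tr X ∘ₗ LinearMap.mulLeft W.K a).smulRight b := by
  apply gr_ext (W.isInternal X)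
  intro l x hx
  rw [opc_apply, LinearMap.smul_apply, LinearMap.smulRight_apply, LinearMap.comp_apply,
    LinearMap.mulLeft_apply, mul_assoc, W.comm (W.map_mem _ hb) (W.map_mem _ hx), mul_smul_comm,
    map_smul, ← mul_assoc, ← W.map_mul', W.push_snd]
  by_cases h : i + l = 2 * X.dim
  · rw [sign_aux (K := W.K) h j]
  · rw [W.tr_eq_zero (W.mul_mem ha hx) h, zero_smul, smul_zero, smul_zero]

lemma trace_opc (c : W.H (X.prod X)) :
    LinearMap.trace W.K (W.H X) (sgn W X ∘ₗ opc W c) = W.tr X (W.map (diag X) c) := by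
  have : Module.Finite W.K (W.H X) := (W.isPoincareAlgebra X).finite
  refine W.kunneth_induction (p := fun c => LinearMap.trace W.K (W.H X) (sgn W X ∘ₗ opc W c) =
    W.tr X (W.map (diag X) c)) ?_ ?_ c
  · intro a b ha hb
    rw [opc_add, LinearMap.comp_add, map_add, ha, hb, map_add, map_add]
  · intro i j a ha b hb
    rw [opc_prod W ha hb, LinearMap.comp_smul, map_smul, W.map_mul', ← W.map_comp, ← W.map_comp,
      diag_fst, diag_snd, W.map_id, W.map_id]
    have h1 : sgn W X ∘ₗ (W.tr X ∘ₗ LinearMap.mulLeft W.K a).smulRight b =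
        (W.tr X ∘ₗ LinearMap.mulLeft W.K a).smulRight ((-1 : W.K) ^ j • b) := by
      ext x
      rw [LinearMap.comp_apply, LinearMap.smulRight_apply, LinearMap.smulRight_apply, map_smul,
        sgn, scal_apply _ _ hb]
    rw [h1, trace_smulRight, map_smul, LinearMap.comp_apply, LinearMap.mulLeft_apply, smul_smul,
      smul_eq_mul]
    by_cases h : i + j = 2 * X.dim
    · rw [sign_aux (K := W.K) h j]
      have h2 : (-1 : W.K) ^ (j * j) * (-1 : W.K) ^ j = 1 := by
        rw [← pow_add]
        have h3 : Even (j * j + j) := by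
          rw [show j * j + j = j * (j + 1) by ring]
          exact Nat.even_mul_succ_self j
        exact h3.neg_one_pow
      rw [h2, one_mul]
    · rw [W.tr_eq_zero (W.mul_mem ha hb) h, mul_zero]

/-- **The trace formula.** -/
lemma trC_eq (γ : C.CH (X.prod X)) :
    ((trC γ : ℚ) : W.K) = LinearMap.trace W.K (W.H X) (sgn W X ∘ₗ W.act γ) := by
  have h1 := trace_opc W (W.cl _ γ)
  have h2 : opc W (W.cl _ γ) = W.act γ := rfl
  rw [h2] at h1
  rw [h1, trC, ← W.tr_cl, W.cl_mul, ChowTheory.diagC, W.cl_push, W.tr_push, map_one, one_mul]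

/-- Correspondences of degree zero and square zero in cohomology have trace zero. -/
lemma trC_eq_zero {γ : C.CH (X.prod X)} (hγ : γ ∈ C.gr (X.prod X) X.dim)
    (h : ∀ a, W.act γ (W.act γ a) = 0) : trC γ = 0 := by
  have : Module.Finite W.K (W.H X) := (W.isPoincareAlgebra X).finite
  have hc : ∀ a, W.act γ (sgn W X a) = sgn W X (W.act γ a) := by
    intro a
    refine gr_induction (W.isInternal X)
      (p := fun a => W.act γ (sgn W X a) = sgn W X (W.act γ a)) ?_ ?_ a
    · intro i a ha
      rw [sgn, scal_apply _ _ ha, map_smul, scal_apply _ _ (act_mem0 W hγ ha)]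
    · intro a b ha hb
      simp only [map_add, ha, hb]
  have h1 : IsNilpotent (sgn W X ∘ₗ W.act γ : Module.End W.K (W.H X)) := by
    refine ⟨2, ?_⟩
    ext a
    rw [pow_two, Module.End.mul_apply, LinearMap.comp_apply, LinearMap.comp_apply, hc, h, map_zero,
      map_zero, LinearMap.zero_apply]
  have h2 := (LinearMap.isNilpotent_trace_of_isNilpotent h1).eq_zero
  rw [← trC_eq] at h2
  exact_mod_cast h2

end Run7.h43.SD
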