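import Pool.Agent.Run7.h43.SD.Exist
import Pool.Agent.Run7.h192.Murre.IsoDefs

/-!
# Uniqueness of tame decompositions
-/

set_option autoImplicit false

open CategoryTheory CategoryTheory.Limits AlgebraicGeometry Finset
open Pool.Agent.H914 Pool.Agent.H914.VarClass Pool.Agent.H914.VarClass.Obj Pool.Agent.R903
open Pool.Agent.Run7.h192.Murre

universe u v w

namespace Run7.h43.SD

/-- An inverse square root of `1 - X`, up to order `n`. -/
lemma exists_sqrt (n : ℕ) : ∃ f : Polynomial ℚ, Polynomial.X ^ (n + 1) ∣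
    f * f * (1 - Polynomial.X) - 1 ∧ f.eval 0 = 1 := by
  induction n with
  | zero =>
    refine ⟨1, ?_, by simp⟩
    rw [zero_add, pow_one]
    exact ⟨-1, by ring⟩
  | succ n ih =>
    obtain ⟨f, ⟨r, hr⟩, hf⟩ := ih
    set a : ℚ := r.eval 0 / 2 with ha
    refine ⟨f - Polynomial.C a * Polynomial.X ^ (n + 1), ?_, ?_⟩
    · have h1 : (f - Polynomial.C a * Polynomial.X ^ (n + 1)) *
          (f - Polynomial.C a * Polynomial.X ^ (n + 1)) * (1 - Polynomial.X) - 1 =
          Polynomial.X ^ (n + 1) * (r - 2 * Polynomial.C a * f * (1 - Polynomial.X) +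
            Polynomial.C a * Polynomial.C a * Polynomial.X ^ (n + 1) * (1 - Polynomial.X)) := by
        linear_combination hr
      rw [h1, pow_succ Polynomial.X (n + 1)]
      refine mul_dvd_mul_left _ ?_
      rw [Polynomial.X_dvd_iff, Polynomial.coeff_zero_eq_eval_zero]
      simp [hf, ha]
      ring
    · simp [hf]

lemma commute_aeval {E : Type*} [Ring E] [Algebra ℚ E] {n u : E} (h : Commute n u)
    (f : Polynomial ℚ) : Commute (Polynomial.aeval n f) u := by
  induction f using Polynomial.induction_on' with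
  | add p q hp hq => rw [map_add]; exact hp.add_left hq
  | monomial m a =>
    rw [Polynomial.aeval_monomial]
    exact (Algebra.commute_algebraMap_left a u).mul_left (h.pow_left m)

variable {k : Type u} [Field k] {𝒱 : VarClass k} {C : ChowTheory.{u, v} 𝒱}
  {W : WeilTheory.{u, v, w} C} {X Y Z : 𝒱.Obj}

/-- the elements which commute with `γ` -/
noncomputable def Cen (γ : C.CH (X.prod X)) : Subalgebra ℚ (R0 C X) where
  carrier := {t | C.comp (ud t) γ = C.comp γ (ud t)}
  mul_mem' := fun {a b} ha hb => by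
    change C.comp (ud (a * b)) γ = C.comp γ (ud (a * b))
    change C.comp (ud a) γ = C.comp γ (ud a) at ha
    change C.comp (ud b) γ = C.comp γ (ud b) at hb
    rw [ud_mul, C.comp_assoc, ha, ← C.comp_assoc, hb, C.comp_assoc]
  add_mem' := fun {a b} ha hb => by
    change C.comp (ud (a + b)) γ = C.comp γ (ud (a + b))
    change C.comp (ud a) γ = C.comp γ (ud a) at ha
    change C.comp (ud b) γ = C.comp γ (ud b) at hb
    rw [map_add, C.add_comp, C.comp_add, ha, hb]
  algebraMap_mem' := fun r => by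
    change C.comp (ud (algebraMap ℚ (R0 C X) r)) γ = C.comp γ (ud (algebraMap ℚ (R0 C X) r))
    rw [Algebra.algebraMap_eq_smul_one, map_smul, ud_one, C.smul_comp, C.comp_smul,
      C.diagC_comp, C.comp_diagC]

lemma sysR0 {π : ℕ → C.CH (X.prod X)} (h : W.IsCK X π) :
    Sys (fun j => elt (π j) (h.mem j)) (2 * X.dim + 1) where
  idem j := ud_inj (by rw [ud_mul, ud_elt, h.idem])
  orth i j hij := ud_inj (by rw [ud_mul, ud_elt, ud_elt, h.orth j i (Ne.symm hij), map_zero])
  sum := ud_inj (by rw [map_sum, ud_one, ← h.sum]; rfl)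
  zero j hj := ud_inj (by rw [ud_elt, h.eq_zero (by omega), map_zero])

include W in
lemma small_of_isTame {p : C.CH (X.prod X)} (h : IsTame C X p) :
    Small (NI C X) (elt p h.mem) := by
  obtain ⟨s, hs, hs'⟩ := small_of_mem W h.mem_tameIdeal
  have : s = elt p h.mem := ud_inj hs
  rwa [← this]

/-- acts as zero -/
def AcZero (W : WeilTheory.{u, v, w} C) (t : R0 C X) : Prop := ∀ x, ac W t x = 0

lemma acZero_of {t : R0 C X} (h : ∀ l, ∀ x ∈ W.gr X l, ac W t x = 0) : AcZero W t := by
  intro x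
  refine gr_induction (W.isInternal X) (p := fun x => ac W t x = 0) h ?_ x
  intro a b ha hb
  rw [ac, map_add]
  rw [ac] at ha hb
  rw [ha, hb, add_zero]

lemma AcZero.mem {t : R0 C X} (h : AcZero W t) : t ∈ NI C X :=
  numTrivial_of_act W h

lemma AcZero.tp {t : R0 C X} (h : AcZero W t) : AcZero W (tp t) := by
  apply acZero_of
  intro l x hx
  rw [ac_tp (c := fun _ => 0) (fun m a _ => by rw [h a, zero_smul]) hx, zero_smul]

lemma AcZero.add {s t : R0 C X} (hs : AcZero W s) (ht : AcZero W t) : AcZero W (s + t) := by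
  intro x; rw [ac_add, hs, ht, add_zero]

lemma AcZero.mul_right {t : R0 C X} (h : AcZero W t) (s : R0 C X) : AcZero W (t * s) := by
  intro x; rw [ac_mul]; exact h _

lemma Small.nil {t : R0 C X} (hs : Small (NI C X) t) (h : AcZero W t) : IsNilpotent t := by
  have h1 := hs.nilpotent h.mem
  obtain ⟨n, hn⟩ := h1
  exact ⟨2 * n, by rw [pow_mul, pow_two, hn]⟩

section Two

variable {Q Q' : ℕ → R0 C X}

/-- the intertwiner -/
noncomputable def vv (Q Q' : ℕ → R0 C X) : R0 C X := ∑ j ∈ range (2 * X.dim + 1), Q' j * Q j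

lemma vv_mul (h : Sys Q (2 * X.dim + 1)) (j : ℕ) : vv Q Q' * Q j = Q' j * Q j := by
  rw [vv, Finset.sum_mul]
  by_cases hj : j < 2 * X.dim + 1
  · rw [Finset.sum_eq_single j]
    · rw [mul_assoc, h.idem]
    · intro i _ hi
      rw [mul_assoc, h.orth i j hi, mul_zero]
    · intro h5
      exact absurd (Finset.mem_range.2 hj) h5
  · rw [h.zero j (not_lt.1 hj), mul_zero]
    refine Finset.sum_eq_zero fun i _ => by rw [mul_zero]

lemma mul_vv (h' : Sys Q' (2 * X.dim + 1)) (j : ℕ) : Q' j * vv Q Q' = Q' j * Q j := by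
  rw [vv, Finset.mul_sum]
  by_cases hj : j < 2 * X.dim + 1
  · rw [Finset.sum_eq_single j]
    · rw [← mul_assoc, h'.idem]
    · intro i _ hi
      rw [← mul_assoc, h'.orth j i (Ne.symm hi), zero_mul]
    · intro h5
      exact absurd (Finset.mem_range.2 hj) h5
  · rw [h'.zero j (not_lt.1 hj), zero_mul]
    refine Finset.sum_eq_zero fun i _ => by rw [zero_mul]

lemma small_one_sub (h : Sys Q (2 * X.dim + 1)) (W : WeilTheory.{u, v, w} C)
    (hQ : ∀ j, j ≠ X.dim → Small (NI C X) (Q j)) : Small (NI C X) (1 - Q X.dim) := by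
  have h1 : 1 - Q X.dim = ∑ j ∈ (range (2 * X.dim + 1)).erase X.dim, Q j := by
    have h2 := Finset.add_sum_erase (range (2 * X.dim + 1)) Q
      (Finset.mem_range.2 (show X.dim < 2 * X.dim + 1 by omega))
    rw [h.sum] at h2
    rw [← h2]
    abel
  rw [h1]
  exact Small.sum (two_NI W) _ _ fun j hj => hQ j (Finset.ne_of_mem_erase hj)

lemma small_vv (h : Sys Q (2 * X.dim + 1)) (h' : Sys Q' (2 * X.dim + 1))
    (W : WeilTheory.{u, v, w} C)
    (hQ : ∀ j, j ≠ X.dim → Small (NI C X) (Q j))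
    (hQ' : ∀ j, j ≠ X.dim → Small (NI C X) (Q' j)) : Small (NI C X) (1 - vv Q Q') := by
  have h1 : 1 - vv Q Q' = (1 - Q' X.dim) + Q' X.dim * (1 - Q X.dim) +
      -(∑ j ∈ (range (2 * X.dim + 1)).erase X.dim, Q' j * Q j) := by
    have h2 := Finset.add_sum_erase (range (2 * X.dim + 1)) (fun j => Q' j * Q j)
      (Finset.mem_range.2 (show X.dim < 2 * X.dim + 1 by omega))
    rw [vv, ← h2]
    simp only [mul_sub, mul_one]
    abel
  rw [h1]
  have hI := two_NI (X := X) W
  exact ((small_one_sub h' W hQ').add hI ((small_one_sub h W hQ).mul_left _)).add hI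
    (Small.sum hI _ _ fun j hj => (hQ' j (Finset.ne_of_mem_erase hj)).mul_right _).neg

lemma acZero_vv (hQ : ∀ l, ∀ x ∈ W.gr X l, ∀ j, ac W (Q j) x = if l = j then x else 0)
    (hQ' : ∀ l, ∀ x ∈ W.gr X l, ∀ j, ac W (Q' j) x = if l = j then x else 0) :
    AcZero W (1 - vv Q Q') := by
  apply acZero_of
  intro l x hx
  by_cases hl : l ≤ 2 * X.dim
  swap
  · rw [W.gr_eq_bot X l (by omega), Submodule.mem_bot] at hx
    rw [hx, ac_zero_right]
  rw [ac_sub, ac_one, vv, ac_sum, Finset.sum_eq_single l, sub_eq_zero]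
  · rw [ac_mul, hQ l x hx, if_pos rfl, hQ' l x hx, if_pos rfl]
  · intro j _ hj
    rw [ac_mul, hQ l x hx, if_neg (Ne.symm hj), ac_zero_right]
  · intro h5
    exact absurd (Finset.mem_range.2 (by omega)) h5

end Two

variable {π π' : ℕ → C.CH (X.prod X)}

/-- the projectors as elements of the ring -/
noncomputable def el (h : W.IsCK X π) (j : ℕ) : R0 C X := elt (π j) (h.mem j)

/-- Two tame decompositions are conjugate. -/
theorem conj_of_tame (h : IsTameCK W X π) (h' : IsTameCK W X π') :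
    ∃ φ ψ, IsDegreeZero C φ ∧ IsInverse C φ ψ ∧ IsIdMap (W.act φ) ∧
      ∀ j, C.comp (π j) φ = C.comp φ (π' j) := by
  set Q := el h.1 with hQ
  set Q' := el h'.1 with hQ'
  have hs : Sys Q (2 * X.dim + 1) := sysR0 h.1
  have hs' : Sys Q' (2 * X.dim + 1) := sysR0 h'.1
  have hsm := small_vv hs hs' W (fun j hj => small_of_isTame (W := W) (h.2 j hj))
    (fun j hj => small_of_isTame (W := W) (h'.2 j hj))
  have haz : AcZero W (1 - vv Q Q') := acZero_vv (fun l x hx j => h.1.proj j l x hx)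
    (fun l x hx j => h'.1.proj j l x hx)
  obtain ⟨e, he⟩ : IsUnit (vv Q Q') := by
    have h1 := (hsm.nil haz).isUnit_one_sub
    rwa [sub_sub_cancel] at h1
  refine ⟨ud (vv Q Q'), ud ((e⁻¹ : (R0 C X)ˣ) : R0 C X), ud_mem _, ⟨?_, ?_⟩, ?_, ?_⟩
  · rw [← ud_mul, ← he, Units.inv_mul, ud_one]
  · rw [← ud_mul, ← he, Units.mul_inv, ud_one]
  · intro x
    have h1 := haz x
    rw [ac_sub, ac_one, sub_eq_zero] at h1
    exact h1.symm
  · intro j
    have h1 : vv Q Q' * Q j = Q' j * vv Q Q' := by rw [vv_mul hs, mul_vv hs']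
    exact congrArg ud h1

/-- Two self-dual tame decompositions are isometric. -/
theorem isometric_of_tame (h : IsTameCK W X π) (h' : IsTameCK W X π') (hd : SelfDual C π)
    (hd' : SelfDual C π') : Isometric W π π' := by
  set Q := el h.1 with hQ
  set Q' := el h'.1 with hQ'
  have hs : Sys Q (2 * X.dim + 1) := sysR0 h.1
  have hs' : Sys Q' (2 * X.dim + 1) := sysR0 h'.1
  have hsm := small_vv hs hs' W (fun j hj => small_of_isTame (W := W) (h.2 j hj))
    (fun j hj => small_of_isTame (W := W) (h'.2 j hj))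
  have haz : AcZero W (1 - vv Q Q') := acZero_vv (fun l x hx j => h.1.proj j l x hx)
    (fun l x hx j => h'.1.proj j l x hx)
  set s := 1 - vv Q Q' with hsdef
  have hv : vv Q Q' = 1 - s := by rw [hsdef, sub_sub_cancel]
  set v := vv Q Q' with hvdef
  -- the transpose
  have htQ : ∀ j ≤ 2 * X.dim, tp (Q j) = Q (2 * X.dim - j) := fun j hj => ud_inj (hd j hj)
  have htQ' : ∀ j ≤ 2 * X.dim, tp (Q' j) = Q' (2 * X.dim - j) := fun j hj => ud_inj (hd' j hj)
  have htv : tp v = ∑ j ∈ range (2 * X.dim + 1), Q j * Q' j := by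
    rw [hvdef, vv, map_sum, ← Finset.sum_range_reflect (fun j => Q j * Q' j)]
    refine Finset.sum_congr rfl fun j hj => ?_
    rw [Finset.mem_range] at hj
    rw [tp_mul, htQ j (by omega), htQ' j (by omega), Nat.add_sub_cancel]
  have htv' : tp v = vv Q' Q := htv
  -- the defect
  set n := 1 - tp v * v with hn
  have hn1 : n = s + tp s + -(tp s * s) := by
    have h1 : tp v = 1 - tp s := by rw [hv, map_sub, tp_one]
    rw [hn, h1, hv]
    noncomm_ring
  have hI := two_NI (X := X) W
  have hns : Small (NI C X) n := by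
    rw [hn1]
    exact (hsm.add hI (hsm.tp W)).add hI (((hsm.tp W).mul_right s).neg)
  have hn0 : AcZero W n := by
    rw [hn1]
    refine (haz.add haz.tp).add ?_
    intro x
    rw [← neg_one_smul ℚ, ac_smul, (haz.tp.mul_right s) x, smul_zero]
  obtain ⟨N, hN⟩ := hns.nil hn0
  obtain ⟨f, ⟨r, hr⟩, hf0⟩ := exists_sqrt N
  set F := Polynomial.aeval n f with hF
  have hF1 : F * F * (1 - n) = 1 := by
    have h1 := congrArg (Polynomial.aeval n) hr
    simp only [map_sub, map_mul, map_one, Polynomial.aeval_X, map_pow] at h1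
    rw [pow_succ, hN, zero_mul, zero_mul, sub_eq_zero] at h1
    exact h1
  have htn : tp n = n := by
    rw [hn, map_sub, tp_one, tp_mul, tp_tp]
  have htF : tp F = F := by rw [hF, tau_aeval tp_one tp_mul, htn]
  have hFn : Commute F n := commute_aeval (Commute.refl n) f
  have hvv : tp v * v = 1 - n := by rw [hn, sub_sub_cancel]
  set w := v * F with hw
  have htw : tp w = F * tp v := by rw [hw, tp_mul, htF]
  have h1 : tp w * w = 1 := by
    rw [htw, hw]
    calc F * tp v * (v * F) = F * (tp v * v) * F := by simp only [mul_assoc]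
      _ = F * ((1 - n) * F) := by rw [hvv, mul_assoc]
      _ = F * (F * (1 - n)) := by
          rw [((Commute.one_right F).sub_right hFn).eq]
      _ = 1 := by rw [← mul_assoc, hF1]
  have hvu : IsUnit v := by
    have h2 := (hsm.nil haz).isUnit_one_sub
    rwa [← hv] at h2
  have hFu : IsUnit F := by
    refine ⟨⟨F, F * (1 - n), by rw [← mul_assoc, hF1], ?_⟩, rfl⟩
    have : F * (1 - n) * F = F * (F * (1 - n)) := by
      rw [mul_assoc, ((Commute.one_right F).sub_right hFn).eq]
    rw [this, ← mul_assoc, hF1]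
  have hwu : IsUnit w := hvu.mul hFu
  have h2 : w * tp w = 1 := by
    obtain ⟨e, he⟩ := hwu
    have h3 : tp w = ((e⁻¹ : (R0 C X)ˣ) : R0 C X) := by
      calc tp w = tp w * (e * ((e⁻¹ : (R0 C X)ˣ) : R0 C X)) := by rw [Units.mul_inv, mul_one]
        _ = _ := by rw [← mul_assoc, he, h1, one_mul]
    rw [h3, ← he, Units.mul_inv]
  have hcn : ∀ j, Commute n (Q j) := by
    intro j
    have e1 : tp v * v * Q j = Q j * Q' j * Q j := by
      rw [mul_assoc, hvdef, vv_mul hs, ← mul_assoc, htv', vv_mul hs']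
    have e2 : Q j * (tp v * v) = Q j * Q' j * Q j := by
      rw [← mul_assoc, htv', mul_vv hs, mul_assoc, hvdef, mul_vv hs', ← mul_assoc]
    have e3 : Commute (tp v * v) (Q j) := e1.trans e2.symm
    rw [hn]
    exact (Commute.one_left _).sub_left e3
  have hcF : ∀ j, Commute F (Q j) := fun j => commute_aeval (hcn j) f
  refine ⟨ud w, ud_mem _, ⟨?_, ?_⟩, ?_, ?_, ?_⟩
  · change C.comp (ud w) (ud (tp w)) = _
    rw [← ud_mul, h1, ud_one]
  · change C.comp (ud (tp w)) (ud w) = _
    rw [← ud_mul, h2, ud_one]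
  · intro x
    change ac W w x = x
    have e1 : ac W F x = x := by
      have e2 : ac W n x = (((0 : ℚ) : W.K)) • x := by rw [hn0 x, Rat.cast_zero, zero_smul]
      rw [hF, ac_aeval e2, hf0, Rat.cast_one, one_smul]
    rw [hw, ac_mul, e1]
    have e3 := haz x
    rw [hsdef, ac_sub, ac_one, sub_eq_zero] at e3
    exact e3.symm
  · intro j
    have e1 : w * Q j = Q' j * w := by
      rw [hw, mul_assoc, (hcF j).eq, ← mul_assoc, ← mul_assoc, hvdef, vv_mul hs, mul_vv hs']
    exact congrArg ud e1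
  · intro γ hγ
    have e1 : ∀ j, Q j ∈ Cen γ := fun j => (hγ j).1
    have e2 : ∀ j, Q' j ∈ Cen γ := fun j => (hγ j).2
    have e3 : v ∈ Cen γ := Subalgebra.sum_mem _ fun j _ => Subalgebra.mul_mem _ (e2 j) (e1 j)
    have e4 : tp v ∈ Cen γ := by
      rw [htv]
      exact Subalgebra.sum_mem _ fun j _ => Subalgebra.mul_mem _ (e1 j) (e2 j)
    have e5 : n ∈ Cen γ := Subalgebra.sub_mem _ (Subalgebra.one_mem _)
      (Subalgebra.mul_mem _ e4 e3)
    have e6 : F ∈ Cen γ :=
      (Algebra.adjoin_le (Set.singleton_subset_iff.2 e5)) (Polynomial.aeval_mem_adjoin_singleton ℚ n)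
    exact Subalgebra.mul_mem _ e3 e6

end Run7.h43.SD
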